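import Pool.Agent.CGAP.Stmts

/-!
# Module AFC: from rings to varieties
-/

set_option autoImplicit false

open Polynomial CategoryTheory AlgebraicGeometry

namespace CGAP

open Pool.Agent.Lib_helper55.Beil Pool.Agent.Lib_helper66.OneP CUB

universe v

theorem t_AFC : S_AFC.{v} := by
  intro k E _ _ T A B _ _ _ _ _ _ i j h1 h2 h3 h4 h6
  obtain ⟨L, hL⟩ := h2
  obtain ⟨M, hM, hMF⟩ := h3
  refine ⟨?_, ?_, ?_, h4, ?_⟩
  · intro hz c
    obtain ⟨c, rfl⟩ := (cyE (k := k) (A := B) E j).surjective c
    refine (cyE_mem c).mpr (h1 (fun z => ?_) c)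
    exact (cyE_mem z).mp (hz _)
  · have hle : ratZero E i (aff k A) ≤ (ratZero E j (aff k B)).comap
        ((cyE (k := k) (A := B) E j).toLinearMap ∘ₗ L ∘ₗ
          (cyE (k := k) (A := A) E i).symm.toLinearMap) := by
      intro c hc
      obtain ⟨c, rfl⟩ := (cyE (k := k) (A := A) E i).surjective c
      rw [Submodule.mem_comap]
      simp only [LinearMap.comp_apply, LinearEquiv.coe_coe, LinearEquiv.symm_apply_apply]
      exact (cyE_mem _).mpr ((hL c).mpr ((cyE_mem c).mp hc))
    refine ⟨Submodule.mapQ _ _ _ hle, ?_⟩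
    rw [injective_iff_map_eq_zero]
    intro a ha
    obtain ⟨c, rfl⟩ := Submodule.mkQ_surjective _ a
    obtain ⟨c, rfl⟩ := (cyE (k := k) (A := A) E i).surjective c
    rw [Submodule.mkQ_apply, Submodule.mapQ_apply, Submodule.Quotient.mk_eq_zero] at ha
    simp only [LinearMap.comp_apply, LinearEquiv.coe_coe, LinearEquiv.symm_apply_apply] at ha
    rw [Submodule.mkQ_apply, Submodule.Quotient.mk_eq_zero]
    exact (cyE_mem c).mpr ((hL c).mp ((cyE_mem _).mp ha))
  · refine ⟨M.restrict (p := invariants (T i) (aff k A)) (q := invariants (T j) (aff k B)) ?_, ?_⟩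
    · intro m hm
      rw [mem_invariants] at hm ⊢
      have h5 := hMF m
      exact h5.symm.trans (congrArg M hm)
    · intro a b hab
      apply Subtype.ext
      apply hM
      exact congrArg Subtype.val hab
  · intro hc x
    obtain ⟨p, rfl⟩ := (ptE (k := k) (A := B) j).surjective x
    have h7 := h6 (fun z => by
      induction z using Finsupp.induction_linear with
      | zero => exact map_zero _
      | add c d hc hd => rw [map_add, hc, hd, add_zero]
      | single q y => rw [cls_single, hc, smul_zero]) (Finsupp.single p 1)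
    rwa [cls_single, one_smul] at h7

end CGAP
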