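import Pool.Agent.CGAP.Stmts

/-!
# CGAP: the module BND
-/

set_option autoImplicit false

open Polynomial CategoryTheory AlgebraicGeometry Cardinal

namespace CGAP

open Pool.Agent.Lib_helper55.Beil Pool.Agent.Lib_helper66.OneP CUB

universe v

namespace BND

variable {k : Type} [Field k] {E : Type} [Field E]

lemma chowDim_zero {i : ℕ} {X : Var k} : chowDim E i X = 0 ↔ CZ E i X := by
  rw [chowDim, rank_zero_iff]
  constructor
  · intro h c
    have h1 : (ratZero E i X).mkQ c = 0 := Subsingleton.elim _ _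
    rwa [Submodule.mkQ_apply, Submodule.Quotient.mk_eq_zero] at h1
  · intro h
    refine ⟨fun a b => ?_⟩
    obtain ⟨c, rfl⟩ := (ratZero E i X).mkQ_surjective a
    obtain ⟨d, rfl⟩ := (ratZero E i X).mkQ_surjective b
    rw [← sub_eq_zero, ← map_sub, Submodule.mkQ_apply, Submodule.Quotient.mk_eq_zero]
    exact h (c - d)

lemma invDim_zero {i : ℕ} (T : Homology.{v} k E i) {X : Var k} : invDim T X = 0 ↔ HZ T X := by
  rw [invDim, Submodule.finrank_eq_zero, Submodule.eq_bot_iff]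
  constructor
  · intro h m hm
    exact h m ((mem_invariants T X m).mpr hm)
  · intro h m hm
    exact h m ((mem_invariants T X m).mp hm)

/-- Doubling: a bounded function which is doubled is zero. -/
lemma double {P : Var k → Prop} {d : Var k → Cardinal.{0}}
    (h : ∀ X, P X → ∃ Y, P Y ∧ d X + d X ≤ d Y) (C : ℕ) (hb : ∀ X, P X → d X ≤ C)
    (X : Var k) (hX : P X) : d X = 0 := by
  by_contra h0
  have h1 : 1 ≤ d X := Cardinal.one_le_iff_ne_zero.mpr h0
  have key : ∀ j : ℕ, ∃ Y, P Y ∧ ((2 ^ j : ℕ) : Cardinal.{0}) ≤ d Y := by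
    intro j
    induction j with
    | zero => exact ⟨X, hX, by simpa using h1⟩
    | succ j ih =>
      obtain ⟨Y, hY, hj⟩ := ih
      obtain ⟨Z, hZ, hd⟩ := h Y hY
      refine ⟨Z, hZ, le_trans ?_ hd⟩
      rw [pow_succ, mul_two, Nat.cast_add]
      exact add_le_add hj hj
  obtain ⟨Y, hY, hC⟩ := key C
  have h2 : ((2 ^ C : ℕ) : Cardinal.{0}) ≤ C := hC.trans (hb Y hY)
  have h3 : 2 ^ C ≤ C := by exact_mod_cast h2
  exact absurd h3 (not_le.mpr Nat.lt_two_pow_self)

lemma chow_double {i : ℕ} {X Y : Var k} (L : (Chow E i X × Chow E i X) →ₗ[E] Chow E i Y)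
    (hL : Function.Injective L) : chowDim E i X + chowDim E i X ≤ chowDim E i Y := by
  have h1 := LinearMap.rank_le_of_injective L hL
  rwa [rank_prod'] at h1

lemma inv_double {i : ℕ} (T : Homology.{v} k E i) {X Y : Var k}
    (M : (invariants T X × invariants T X) →ₗ[E] invariants T Y)
    (hM : Function.Injective M) : (invDim T X : Cardinal.{0}) + invDim T X ≤ invDim T Y := by
  have h1 := LinearMap.finrank_le_finrank_of_injective hM
  rw [Module.finrank_prod] at h1
  exact_mod_cast h1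

end BND

open BND in
theorem t_BND : M_BND.{v} := by
  intro hD k E _ _ T hT i C
  refine ⟨?_, ?_, ?_⟩
  · intro h X hX hc
    rw [← invDim_zero]
    have := double (P := fun X => IsAffine X.X ∧ CZ E i X) (d := fun X => (invDim (T i) X : Cardinal))
      ?_ C ?_ X ⟨hX, hc⟩
    · exact_mod_cast this
    · rintro Y ⟨h1, h2⟩
      obtain ⟨Z, h3, h4, -, -, -, ⟨M, hM⟩⟩ := hD k E T hT i Y h1
      exact ⟨Z, ⟨h3, h4 h2⟩, inv_double (T i) M hM⟩
    · rintro Y ⟨h1, h2⟩
      exact_mod_cast h Y h1 h2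
  · intro h X hX hc
    rw [← chowDim_zero]
    refine double (P := fun X => IsAffine X.X ∧ HZ (T i) X) (d := fun X => chowDim E i X)
      ?_ C ?_ X ⟨hX, hc⟩
    · rintro Y ⟨h1, h2⟩
      obtain ⟨Z, h3, -, h4, -, ⟨L, hL⟩, -⟩ := hD k E T hT i Y h1
      exact ⟨Z, ⟨h3, h4 h2⟩, chow_double L hL⟩
    · rintro Y ⟨h1, h2⟩
      exact h Y h1 h2
  · intro h X hX hc
    rw [← invDim_zero]
    have := double (P := fun X => IsAffine X.X ∧ CLZ (T i) X)
      (d := fun X => (invDim (T i) X : Cardinal)) ?_ C ?_ X ⟨hX, hc⟩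
    · exact_mod_cast this
    · rintro Y ⟨h1, h2⟩
      obtain ⟨Z, h3, -, -, h4, -, ⟨M, hM⟩⟩ := hD k E T hT i Y h1
      exact ⟨Z, ⟨h3, h4 h2⟩, inv_double (T i) M hM⟩
    · rintro Y ⟨h1, h2⟩
      exact_mod_cast h Y h1 h2

end CGAP
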