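import Pool.Agent.CGAP.Stmts2
import Pool.Agent.CGAP.BND

/-!
# CGAP: the module BNZ
-/

set_option autoImplicit false

open Polynomial CategoryTheory AlgebraicGeometry Cardinal

namespace CGAP

open Pool.Agent.Lib_helper55.Beil Pool.Agent.Lib_helper66.OneP CUB

universe v

open BND in
theorem t_BNZ : M_BNZ.{v} := by
  intro hD k E _ _ T hT i C h X hX hc
  rw [← chowDim_zero]
  refine double (P := fun X => IsAffine X.X ∧ CLZ (T i) X) (d := fun X => chowDim E i X)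
    ?_ C ?_ X ⟨hX, hc⟩
  · rintro Y ⟨h1, h2⟩
    obtain ⟨Z, h3, -, -, h4, ⟨L, hL⟩, -⟩ := hD k E T hT i Y h1
    exact ⟨Z, ⟨h3, h4 h2⟩, chow_double L hL⟩
  · rintro Y ⟨h1, h2⟩
    exact h Y h1 h2

end CGAP
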