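import Pool.Agent.CGAP.Stmts
import Pool.Agent.Lib_helper66.OneP.Full

/-!
# CGAP: two disjoint copies of an affine variety
-/

set_option autoImplicit false

open Polynomial CategoryTheory AlgebraicGeometry

namespace CGAP

open Pool.Agent.Lib_helper55.Beil Pool.Agent.Lib_helper66.OneP CUB

universe v

namespace DBL

variable {k : Type} [Field k] {E : Type} [Field E] {i : ℕ}

/-! ## The disjoint union -/

lemma affineHom_two (X : Var k) [IsAffine X.X] :
    IsAffineHom (Limits.coprod.desc X.f X.f) := inferInstance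

lemma lft_two (X : Var k) : LocallyOfFiniteType (Limits.coprod.desc X.f X.f) := by
  rw [IsZariskiLocalAtSource.iff_of_openCover (P := @LocallyOfFiniteType)
    (coprodOpenCover.{0, 0} X.X X.X)]
  rintro (u | u)
  · have h : (coprodOpenCover.{0, 0} X.X X.X).f (Sum.inl u) ≫ Limits.coprod.desc X.f X.f = X.f :=
      Limits.coprod.inl_desc X.f X.f
    exact h.symm ▸ X.lft
  · have h : (coprodOpenCover.{0, 0} X.X X.X).f (Sum.inr u) ≫ Limits.coprod.desc X.f X.f = X.f :=
      Limits.coprod.inr_desc X.f X.f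
    exact h.symm ▸ X.lft

/-- The disjoint union of two copies of the affine variety `X`. -/
noncomputable def two (X : Var k) [IsAffine X.X] : Var k where
  X := X.X ⨿ X.X
  f := Limits.coprod.desc X.f X.f
  sep := inferInstance
  lft := lft_two X
  qc := inferInstance

lemma isAffine_two (X : Var k) [IsAffine X.X] : IsAffine (two X).X :=
  inferInstanceAs (IsAffine (X.X ⨿ X.X))

/-- The first copy as an open subvariety. -/
noncomputable def opL (X : Var k) [IsAffine X.X] : OpenIn X (two X) :=
  ⟨Limits.coprod.inl, Limits.coprod.inl_desc X.f X.f,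
    inferInstanceAs (IsOpenImmersion (Limits.coprod.inl : X.X ⟶ X.X ⨿ X.X))⟩

/-- The second copy as an open subvariety. -/
noncomputable def opR (X : Var k) [IsAffine X.X] : OpenIn X (two X) :=
  ⟨Limits.coprod.inr, Limits.coprod.inr_desc X.f X.f,
    inferInstanceAs (IsOpenImmersion (Limits.coprod.inr : X.X ⟶ X.X ⨿ X.X))⟩

lemma compl_two (X : Var k) [IsAffine X.X] :
    Set.range (opL X).g = (Set.range (opR X).g)ᶜ :=
  (isCompl_range_inl_inr X.X X.X).eq_compl

lemma compl_two' (X : Var k) [IsAffine X.X] :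
    Set.range (opR X).g = (Set.range (opL X).g)ᶜ :=
  (isCompl_range_inl_inr X.X X.X).symm.eq_compl

lemma closed_of {U V X : Var k} (j : OpenIn U X) (j' : OpenIn V X)
    (h : Set.range j.g = (Set.range j'.g)ᶜ) : IsClosedImmersion j.g := by
  have h1 := j.isOpen
  have h2 := j'.isOpen
  apply IsClosedImmersion.of_isPreimmersion
  rw [h]
  exact j'.g.isOpenEmbedding.isOpen_range.isClosed_compl

/-- The first copy as a closed subvariety. -/
noncomputable def clL (X : Var k) [IsAffine X.X] : ClosedIn X (two X) :=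
  ⟨(opL X).g, (opL X).comm, closed_of _ _ (compl_two X)⟩

/-- The second copy as a closed subvariety. -/
noncomputable def clR (X : Var k) [IsAffine X.X] : ClosedIn X (two X) :=
  ⟨(opR X).g, (opR X).comm, closed_of _ _ (compl_two' X)⟩

/-- `Y` is the disjoint union of the two parts `a : Z → Y` and `a' : Z → Y`. -/
structure Parts {Z Y : Var k} (a a' : ClosedIn Z Y) (j j' : OpenIn Z Y) : Prop where
  e : a.g = j.g
  e' : a'.g = j'.g
  c : Complementary a j'
  c' : Complementary a' j

lemma Parts.symm {Z Y : Var k} {a a' : ClosedIn Z Y} {j j' : OpenIn Z Y}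
    (h : Parts a a' j j') : Parts a' a j' j := ⟨h.e', h.e, h.c', h.c⟩

lemma parts_two (X : Var k) [IsAffine X.X] : Parts (clL X) (clR X) (opL X) (opR X) :=
  ⟨rfl, rfl, compl_two X, compl_two' X⟩

/-! ## Homology -/

section Hom

variable (T : ∀ i : ℕ, Homology.{v} k E i) (hT : Extra T) {Z Y : Var k} {a a' : ClosedIn Z Y}
  {j j' : OpenIn Z Y} (h : Parts a a' j j')

include hT h

lemma res_push (n : ℕ) (m : (T i).H n Z) : (T i).res n j ((T i).push n a m) = m :=
  hT.clopen i n Z Y a j h.e m

omit hT in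
lemma res_push' (n : ℕ) (m : (T i).H n Z) : (T i).res n j ((T i).push n a' m) = 0 :=
  ((T i).exact_X n a' j h.c').apply_apply_eq_zero m

lemma hz (hX : HZ (T i) Z) : HZ (T i) Y := by
  intro m hm
  have hm' : (T i).frob (2 * i) Y m = m := hm
  have h1 : (T i).res (2 * i) j m = 0 := by
    apply hX
    change (T i).frob (2 * i) Z ((T i).res (2 * i) j m) = (T i).res (2 * i) j m
    rw [← (T i).res_frob, hm']
  obtain ⟨n, rfl⟩ := ((T i).exact_X (2 * i) a' j h.c' m).mp h1
  have h2 : (T i).res (2 * i) j' ((T i).push (2 * i) a' n) = n := res_push T hT h.symm (2 * i) n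
  have h3 : n = 0 := by
    apply hX
    change (T i).frob (2 * i) Z n = n
    rw [← h2, ← (T i).res_frob, hm']
  rw [h3, map_zero]

omit hT in
lemma clz (hX : CLZ (T i) Z) : CLZ (T i) Y := by
  intro x
  by_cases hx : x.1 ∈ Set.range j.g
  · rw [← h.e] at hx
    obtain ⟨z, rfl⟩ := mem_range_ptsMap a x hx
    have h1 := (T i).push_cl a z (ptsMap i a z).2
    rw [hX z, map_zero] at h1
    exact h1.symm
  · have hx' : x.1 ∈ Set.range a'.g := by
      rw [show Set.range a'.g = (Set.range j.g)ᶜ from h.c']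
      exact hx
    obtain ⟨z, rfl⟩ := mem_range_ptsMap a' x hx'
    have h1 := (T i).push_cl a' z (ptsMap i a' z).2
    rw [hX z, map_zero] at h1
    exact h1.symm

omit hT h in
lemma push_inv (a : ClosedIn Z Y) (x : invariants (T i) Z) :
    (T i).push (2 * i) a x.1 ∈ invariants (T i) Y := by
  rw [mem_invariants, ← (T i).push_frob, (mem_invariants (T i) Z x.1).mp x.2]

lemma inv_two : ∃ M : (invariants (T i) Z × invariants (T i) Z) →ₗ[E] invariants (T i) Y,
    Function.Injective M := by
  let M₀ : (invariants (T i) Z × invariants (T i) Z) →ₗ[E] (T i).H (2 * i) Y :=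
    (((T i).push (2 * i) a).comp (invariants (T i) Z).subtype).coprod
      (((T i).push (2 * i) a').comp (invariants (T i) Z).subtype)
  have hM₀ : ∀ x, M₀ x = (T i).push (2 * i) a x.1.1 + (T i).push (2 * i) a' x.2.1 := fun x => rfl
  have hM : ∀ x, M₀ x ∈ invariants (T i) Y := by
    intro x
    rw [hM₀]
    exact add_mem (push_inv T a x.1) (push_inv T a' x.2)
  refine ⟨M₀.codRestrict _ hM, ?_⟩
  intro x y hxy
  have h1 : M₀ x = M₀ y := congrArg Subtype.val hxy
  rw [hM₀, hM₀] at h1
  have h2 := congrArg ((T i).res (2 * i) j) h1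
  have h3 := congrArg ((T i).res (2 * i) j') h1
  rw [map_add, map_add, res_push T hT h, res_push T hT h, res_push' T h, res_push' T h, add_zero,
    add_zero] at h2
  rw [map_add, map_add, res_push T hT h.symm, res_push T hT h.symm, res_push' T h.symm,
    res_push' T h.symm, zero_add, zero_add] at h3
  exact Prod.ext (Subtype.ext h2) (Subtype.ext h3)

end Hom

/-! ## Cycles -/

section Cyc

variable {Z Y : Var k} {a a' : ClosedIn Z Y} {j j' : OpenIn Z Y} (h : Parts a a' j j')

include h

lemma resCyc_push (c : Pts i Z →₀ E) : resCyc j (pushCyc a c) = c := by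
  ext u
  rw [resCyc_apply]
  have h1 : ptsMapO i j u = ptsMap i a u := by
    apply Subtype.ext
    change j.g u.1 = a.g u.1
    rw [h.e]
  rw [h1]
  exact Finsupp.mapDomain_apply (ptsMap_injective i a) c u

lemma resCyc_push' (c : Pts i Z →₀ E) : resCyc j (pushCyc a' c) = 0 :=
  resCyc_pushCyc a' j h.c' c

lemma cz (hX : CZ E i Z) : CZ E i Y := by
  intro c
  obtain ⟨z, hz⟩ := exists_pushCyc a' j h.c' (c - pushCyc a (resCyc j c)) (by
    rw [map_sub, resCyc_push h, sub_self])
  have h1 : c = pushCyc a' z + pushCyc a (resCyc j c) := by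
    rw [hz, sub_add_cancel]
  rw [h1]
  exact add_mem (pushCyc_ratZero a' z (hX z)) (pushCyc_ratZero a _ (hX _))

lemma chow_two : ∃ L : (Chow E i Z × Chow E i Z) →ₗ[E] Chow E i Y, Function.Injective L := by
  let P : ClosedIn Z Y → ((Pts i Z →₀ E) →ₗ[E] (Pts i Y →₀ E)) := fun b =>
    Finsupp.lmapDomain E E (ptsMap i b)
  have hP : ∀ (b : ClosedIn Z Y) (c : Pts i Z →₀ E), P b c = pushCyc b c := fun b c => rfl
  have hle : ∀ b : ClosedIn Z Y, ratZero E i Z ≤ (ratZero E i Y).comap (P b) := by
    intro b c hc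
    exact pushCyc_ratZero b c hc
  let L : (Chow E i Z × Chow E i Z) →ₗ[E] Chow E i Y :=
    ((ratZero E i Z).mapQ (ratZero E i Y) (P a) (hle a)).coprod
      ((ratZero E i Z).mapQ (ratZero E i Y) (P a') (hle a'))
  refine ⟨L, ?_⟩
  rw [← LinearMap.ker_eq_bot, LinearMap.ker_eq_bot']
  rintro ⟨x, y⟩ hxy
  obtain ⟨c, rfl⟩ := (ratZero E i Z).mkQ_surjective x
  obtain ⟨d, rfl⟩ := (ratZero E i Z).mkQ_surjective y
  have h1 : (ratZero E i Y).mkQ (pushCyc a c + pushCyc a' d) = 0 := by
    rw [map_add]
    exact hxy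
  have h2 : pushCyc a c + pushCyc a' d ∈ ratZero E i Y := by
    rwa [Submodule.mkQ_apply, Submodule.Quotient.mk_eq_zero] at h1
  have h3 := resCyc_ratZero j _ h2
  have h4 := resCyc_ratZero j' _ h2
  rw [map_add, resCyc_push h, resCyc_push' h, add_zero] at h3
  rw [map_add, resCyc_push h.symm, resCyc_push' h.symm, zero_add] at h4
  rw [Submodule.mkQ_apply, Submodule.mkQ_apply, (Submodule.Quotient.mk_eq_zero _).mpr h3,
    (Submodule.Quotient.mk_eq_zero _).mpr h4]
  rfl

end Cyc

end DBL

theorem t_DBL : S_DBL.{v} := by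
  intro k E _ _ T hT i X hX
  have h := DBL.parts_two X
  exact ⟨DBL.two X, DBL.isAffine_two X, DBL.cz h, DBL.hz T hT h, DBL.clz T h, DBL.chow_two h,
    DBL.inv_two T hT h⟩

end CGAP
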