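import Pool.Agent.CGAP.Stmts
import Pool.Agent.CUBH.Main3

/-!
# CGAP: the module FAM
-/

set_option autoImplicit false

open Polynomial CategoryTheory AlgebraicGeometry

namespace CGAP

open Pool.Agent.Lib_helper55.Beil Pool.Agent.Lib_helper66.OneP CUB

universe v

theorem t_FAM : M_FAM.{v} := by
  intro hC hH hT hA k E _ _ _ _ B hB T hX i X hXa
  have : IsAffine X.X := hXa
  obtain ⟨A, _, _, _, ⟨s⟩⟩ := exists_aff X
  obtain ⟨n, N, m, h3n, h2, hiN, f', φ', H', b', hφ', hk', hf', hc'⟩ :=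
    HG.exists_good k A B hB (Set.toFinite B) i
  obtain ⟨H, c, h1, h0, ⟨e⟩⟩ := HG.cuv3 k B N (m + 1) n h3n f' H' b' hf' hc'
  have hs : Smooth (cubic (hyp H c)).f :=
    Asm.s_SMI k _ _ e.symm (Asm.s_SMO k _ _ f')
  have hz : ∀ z : RP k (MvPolynomial (Fin N) k) i →₀ E,
      z ∈ rat k (MvPolynomial (Fin N) k) E i := fun z => Asm.s_ZPOL k E N i hiN z
  obtain ⟨c1, c2⟩ := hC k (MvPolynomial (Fin N) k) A E m i f' φ' hφ' hk' hz
  obtain ⟨d1, d2, d3⟩ := hH k E T hX (MvPolynomial (Fin N) k) A m i f' φ' hφ' hk' hz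
  have h5 : Ctl T i (i + (m + 1)) (aff k A) (aff k (VR (MvPolynomial (Fin N) k) f')) :=
    hA k E T A (VR (MvPolynomial (Fin N) k) f') i (i + (m + 1)) c1 c2 d1 d2 d3
  refine ⟨n, H, c, h1, h0, hs, ?_⟩
  rw [h2]
  exact hT k E T i (i + (m + 1)) X (aff k A) (aff k (VR (MvPolynomial (Fin N) k) f'))
    (cubic (hyp H c)) s.symm (viso e) h5

end CGAP
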