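import Pool.Agent.CGAP.Stmts
/-!
Module GEN of the architecture CGAP (MP_3af9db_ag).
-/

set_option autoImplicit false

open Polynomial

namespace CGAP

open CUB CUB.Asm

namespace GEN

/-! ### supports and push-forward -/

section Supp

variable {k A B E : Type} [Field k] [CommRing A] [CommRing B] [Algebra k A] [Algebra k B]
  [Field E]

lemma supp_add {n : ℕ} {I : Ideal A} {c d : RP k A n →₀ E} (hc : SuppOn k E I c)
    (hd : SuppOn k E I d) : SuppOn k E I (c + d) := by
  intro p hp
  by_cases h : c p = 0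
  · apply hd
    intro h1
    apply hp
    rw [Finsupp.add_apply, h, h1, add_zero]
  · exact hc p h

lemma supp_smul {n : ℕ} {I : Ideal A} (x : E) {c : RP k A n →₀ E} (hc : SuppOn k E I c) :
    SuppOn k E I (x • c) := by
  intro p hp
  apply hc
  intro h1
  apply hp
  rw [Finsupp.smul_apply, h1, smul_zero]

lemma supp_zero {n : ℕ} {I : Ideal A} : SuppOn k E I (0 : RP k A n →₀ E) := by
  intro p hp
  exact absurd rfl hp

lemma supp_single {n : ℕ} {I : Ideal A} (p : RP k A n) (x : E) (h : I ≤ p.1.asIdeal) :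
    SuppOn k E I (Finsupp.single p x) := by
  classical
  intro q hq
  rw [Finsupp.single_apply] at hq
  by_cases h1 : p = q
  · rw [← h1]
    exact h
  · rw [if_neg h1] at hq
    exact absurd rfl hq

lemma push_supp {n : ℕ} (φ : A →ₐ[k] B) (hφ : Function.Surjective φ) (κ : RP k B n →₀ E)
    (p : RP k A n) (h : push E φ hφ κ p ≠ 0) : ∃ p', κ p' ≠ 0 ∧ pushP φ hφ p' = p := by
  classical
  have h1 : p ∈ (Finsupp.mapDomain (pushP φ hφ) κ).support := Finsupp.mem_support_iff.mpr h
  have h2 := Finsupp.mapDomain_support h1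
  rw [Finset.mem_image] at h2
  obtain ⟨p', h3, h4⟩ := h2
  exact ⟨p', Finsupp.mem_support_iff.mp h3, h4⟩

lemma push_comp {D : Type} [CommRing D] [Algebra k D] {n : ℕ} (φ : A →ₐ[k] B)
    (hφ : Function.Surjective φ) (ψ : B →ₐ[k] D) (hψ : Function.Surjective ψ)
    (hc : Function.Surjective (ψ.comp φ)) (κ : RP k D n →₀ E) :
    push E (ψ.comp φ) hc κ = push E φ hφ (push E ψ hψ κ) := by
  have h1 : (pushP (ψ.comp φ) hc : RP k D n → RP k A n) = pushP φ hφ ∘ pushP ψ hψ := by
    funext p
    rfl
  change Finsupp.mapDomain _ κ = Finsupp.mapDomain _ (Finsupp.mapDomain _ κ)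
  rw [h1, Finsupp.mapDomain_comp]

end Supp

section Main

variable {k R E : Type} [Field k] [CommRing R] [Algebra k R] [Algebra.FiniteType k R] [Field E]
  {m i : ℕ}

/-- the cycles for which the conclusion holds -/
def SS (k E : Type) [Field k] {R : Type} [CommRing R] [Algebra k R] [Field E] (m i : ℕ)
    (f : Fin (m + 1) → R) :
    Submodule E (RP k (MvPolynomial (Fin (m + 1)) R) (i + (m + 1)) →₀ E) where
  carrier := {c | ∃ (z : RP k R i →₀ E)
      (d : RP k (MvPolynomial (Fin (m + 1)) R) (i + (m + 1)) →₀ E),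
      SuppOn k E (Ideal.span (Set.range f)) z ∧ IsPull k E (m + 1) (mC k R (m + 1)) z d ∧
      c - d ∈ rat k (MvPolynomial (Fin (m + 1)) R) E (i + (m + 1))}
  add_mem' := by
    rintro c c' ⟨z, d, h1, h2, h3⟩ ⟨z', d', h1', h2', h3'⟩
    refine ⟨z + z', d + d', supp_add h1 h1', ?_, ?_⟩
    · exact (s_PLIN.1 k R _ E (m + 1) i _ z z' d d' 0 h2 h2').2.1
    · have h4 : c + c' - (d + d') = (c - d) + (c' - d') := by abel
      rw [h4]
      exact Submodule.add_mem _ h3 h3'
  zero_mem' := by
    refine ⟨0, 0, supp_zero, ?_, ?_⟩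
    · intro P
      exact ⟨fun _ => rfl, fun _ => rfl⟩
    · rw [sub_zero]
      exact Submodule.zero_mem _
  smul_mem' := by
    rintro x c ⟨z, d, h1, h2, h3⟩
    refine ⟨x • z, x • d, supp_smul x h1, ?_, ?_⟩
    · exact (s_PLIN.1 k R _ E (m + 1) i _ z z d d x h2 h2).2.2.2.1
    · rw [← smul_sub]
      exact Submodule.smul_mem _ x h3

lemma rat_le_SS (f : Fin (m + 1) → R) {c : RP k (MvPolynomial (Fin (m + 1)) R) (i + (m + 1)) →₀ E}
    (hc : c ∈ rat k (MvPolynomial (Fin (m + 1)) R) E (i + (m + 1))) : c ∈ SS k E m i f := by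
  refine ⟨0, 0, supp_zero, ?_, ?_⟩
  · intro P
    exact ⟨fun _ => rfl, fun _ => rfl⟩
  · rw [sub_zero]
    exact hc

/-- a prime of maximal dimension over `p` is unique -/
lemma uniq (p : PrimeSpectrum R) (hp : rdim k p = (i : Cardinal))
    (T : RP k (MvPolynomial (Fin (m + 1)) R) (i + (m + 1)))
    (hT : PrimeSpectrum.comap (mC k R (m + 1)).toRingHom T.1 = p) :
    T.1.asIdeal = p.asIdeal.map (mC k R (m + 1)).toRingHom := by
  have hpr : (p.asIdeal.map (MvPolynomial.C : R →+* MvPolynomial (Fin (m + 1)) R)).IsPrime := by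
    have h0 := p.isPrime
    have h1 : RingHom.ker (MvPolynomial.map (Ideal.Quotient.mk p.asIdeal) :
        MvPolynomial (Fin (m + 1)) R →+* MvPolynomial (Fin (m + 1)) (R ⧸ p.asIdeal)) =
        (RingHom.ker (Ideal.Quotient.mk p.asIdeal)).map MvPolynomial.C := MvPolynomial.ker_map _
    rw [Ideal.mk_ker] at h1
    rw [← h1]
    exact RingHom.ker_isPrime _
  have hle : p.asIdeal.map (mC k R (m + 1)).toRingHom ≤ T.1.asIdeal := by
    rw [Ideal.map_le_iff_le_comap, ← hT]
    exact le_rfl
  set X : PrimeSpectrum (MvPolynomial (Fin (m + 1)) R) :=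
    ⟨p.asIdeal.map (mC k R (m + 1)).toRingHom, hpr⟩ with hX
  by_contra hne
  have hlt : X < T.1 := lt_of_le_of_ne hle (fun h => hne (congrArg PrimeSpectrum.asIdeal h).symm)
  have h1 := (s_DIM1 k _ X).2 T.1 hlt
  have h2 := ((s_GX.2 k R (m + 1)).at' X).1
  have h3 : PrimeSpectrum.comap (mC k R (m + 1)).toRingHom X = p := by
    apply PrimeSpectrum.ext
    apply le_antisymm
    · have h4 : (PrimeSpectrum.comap (mC k R (m + 1)).toRingHom X).asIdeal ≤
          (PrimeSpectrum.comap (mC k R (m + 1)).toRingHom T.1).asIdeal :=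
        Ideal.comap_mono hle
      rw [hT] at h4
      exact h4
    · exact Ideal.le_comap_map
  rw [show PrimeSpectrum.comap (IsScalarTower.toAlgHom k R
    (MvPolynomial (Fin (m + 1)) R)).toRingHom X = p from h3, hp] at h2
  rw [T.2] at h1
  have h5 : ((i + (m + 1) : ℕ) : Cardinal) < ((i : ℕ) : Cardinal) + ((m + 1 : ℕ) : Cardinal) :=
    lt_of_lt_of_le h1 h2
  have h6 : ((i : ℕ) : Cardinal) + ((m + 1 : ℕ) : Cardinal) = ((i + (m + 1) : ℕ) : Cardinal) := by
    push_cast
    rfl
  rw [h6] at h5
  exact lt_irrefl _ h5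

/-- the case where all `f j` vanish -/
lemma caseA (f : Fin (m + 1) → R)
    (hq : ∀ q : PrimeSpectrum R, (∀ j, f j ∈ q.asIdeal) → rdim k q ≤ (i : Cardinal))
    (T : RP k (MvPolynomial (Fin (m + 1)) R) (i + (m + 1)))
    (hf : ∀ j, f j ∈ (PrimeSpectrum.comap (mC k R (m + 1)).toRingHom T.1).asIdeal) :
    Finsupp.single T 1 ∈ SS k E m i f := by
  classical
  set p := PrimeSpectrum.comap (mC k R (m + 1)).toRingHom T.1 with hp
  have hdim : rdim k p = (i : Cardinal) := by
    obtain ⟨n, hn⟩ := (s_DIM1 k R p).1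
    have h1 := ((s_GX.2 k R (m + 1)).at' T.1).1
    rw [show PrimeSpectrum.comap (IsScalarTower.toAlgHom k R
      (MvPolynomial (Fin (m + 1)) R)).toRingHom T.1 = p from rfl, hn, T.2] at h1
    have h2 := hq p hf
    rw [hn] at h2 ⊢
    have h3 : i + (m + 1) ≤ n + (m + 1) := by exact_mod_cast h1
    have h4 : n ≤ i := by exact_mod_cast h2
    have h5 : n = i := by omega
    rw [h5]
  set pr : RP k R i := ⟨p, hdim⟩ with hpr
  refine ⟨Finsupp.single pr 1, Finsupp.single T 1, ?_, ?_, ?_⟩
  · apply supp_single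
    rw [Ideal.span_le]
    rintro _ ⟨j, rfl⟩
    exact hf j
  · intro P
    refine ⟨fun h => ?_, fun h => ?_⟩
    · by_cases h1 : T = P
      · subst h1
        have h2 : (⟨PrimeSpectrum.comap (mC k R (m + 1)).toRingHom T.1, h⟩ : RP k R i) = pr := rfl
        rw [Finsupp.single_eq_same]
        change (1 : E) = Finsupp.single pr (1 : E)
          (⟨PrimeSpectrum.comap (mC k R (m + 1)).toRingHom T.1, h⟩ : RP k R i)
        rw [h2, Finsupp.single_eq_same]
      · have hx : (⟨PrimeSpectrum.comap (mC k R (m + 1)).toRingHom P.1, h⟩ : RP k R i) ≠ pr := by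
          intro h2
          apply h1
          have h3 : PrimeSpectrum.comap (mC k R (m + 1)).toRingHom P.1 = p :=
            congrArg Subtype.val h2
          have h4 := uniq p hdim T rfl
          have h5 := uniq p hdim P h3
          apply Subtype.ext
          apply PrimeSpectrum.ext
          rw [h4, h5]
        have h6 : Finsupp.single T (1 : E) P = 0 := Finsupp.single_eq_of_ne (Ne.symm h1)
        have h7 : Finsupp.single pr (1 : E)
          (⟨PrimeSpectrum.comap (mC k R (m + 1)).toRingHom P.1, h⟩ : RP k R i) = 0 :=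
          Finsupp.single_eq_of_ne hx
        rw [h6]
        exact h7.symm
    · rw [Finsupp.single_eq_of_ne]
      intro h1
      subst h1
      exact h hdim
  · rw [sub_self]
    exact Submodule.zero_mem _

end Main

end GEN

theorem t_GEN : M_GEN := by
  intro hSTE
  unfold S_GEN
  intro k R E _ _ _ _ _ m i f hq c hc
  have hnoeth : IsNoetherianRing R := Algebra.FiniteType.isNoetherianRing k R
  have claim : ∀ I : Ideal R, ∀ c : RP k (MvPolynomial (Fin (m + 1)) R) (i + (m + 1)) →₀ E,
      SuppOn k E (I.map (mC k R (m + 1)).toRingHom ⊔ Ideal.span {lin f}) c →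
      c ∈ GEN.SS k E m i f := by
    intro I
    induction I using IsNoetherian.induction with
    | hgt I ih =>
      intro c hc
      have hsum : c = ∑ T ∈ c.support, c T • Finsupp.single T (1 : E) := by
        conv_lhs => rw [← Finsupp.sum_single c]
        rw [Finsupp.sum]
        apply Finset.sum_congr rfl
        intro T _
        rw [Finsupp.smul_single, smul_eq_mul, mul_one]
      rw [hsum]
      refine Submodule.sum_mem _ fun T hT => Submodule.smul_mem _ _ ?_
      have hTI := hc T (Finsupp.mem_support_iff.mp hT)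
      obtain ⟨hTI1, hTI2⟩ := sup_le_iff.mp hTI
      have hlin : lin f ∈ T.1.asIdeal := hTI2 (Ideal.mem_span_singleton_self _)
      set p := PrimeSpectrum.comap (mC k R (m + 1)).toRingHom T.1 with hp
      have hIp : I ≤ p.asIdeal := Ideal.map_le_iff_le_comap.mp hTI1
      by_cases hne : p.asIdeal = I
      swap
      · refine ih p.asIdeal (lt_of_le_of_ne hIp (fun h => hne h.symm)) _ ?_
        apply GEN.supp_single
        rw [sup_le_iff]
        exact ⟨Ideal.map_comap_le, hTI2⟩
      by_cases hall : ∀ j, f j ∈ p.asIdeal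
      · exact GEN.caseA f hq T hall
      push Not at hall
      obtain ⟨l, hl⟩ := hall
      -- the quotient
      let A := R ⧸ p.asIdeal
      let q : R →ₐ[k] A := Ideal.Quotient.mkₐ k p.asIdeal
      have hqs : Function.Surjective q := Ideal.Quotient.mkₐ_surjective k _
      have hA : Algebra.FiniteType k A := Algebra.FiniteType.of_surjective q hqs
      let fA : Fin (m + 1) → A := fun j => q (f j)
      let μ : MvPolynomial (Fin (m + 1)) R →ₐ[k] MvPolynomial (Fin (m + 1)) A :=
        MvPolynomial.mapAlgHom q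
      have hμ : Function.Surjective μ := MvPolynomial.map_surjective q.toRingHom hqs
      have hμlin : μ (lin f) = lin fA := map_lin q f
      have hμker : RingHom.ker μ.toRingHom = p.asIdeal.map (mC k R (m + 1)).toRingHom := by
        have h1 : RingHom.ker q.toRingHom = p.asIdeal := by
          ext x
          exact Ideal.Quotient.eq_zero_iff_mem
        have h2 : RingHom.ker (MvPolynomial.map q.toRingHom :
            MvPolynomial (Fin (m + 1)) R →+* MvPolynomial (Fin (m + 1)) A) =
            (RingHom.ker q.toRingHom).map MvPolynomial.C := MvPolynomial.ker_map _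
        rw [h1] at h2
        exact h2
      let ν : MvPolynomial (Fin (m + 1)) R →ₐ[k] LR A fA := (mkL (k := k) fA).comp μ
      have hν : Function.Surjective ν := (mkL_surjective (k := k) fA).comp hμ
      have hker : RingHom.ker ν.toRingHom ≤ T.1.asIdeal := by
        intro x hx
        have h1 : mkL (k := k) fA (μ x) = 0 := hx
        have h2 : μ x ∈ Ideal.span {lin fA} := Ideal.Quotient.eq_zero_iff_mem.mp h1
        obtain ⟨y, hy⟩ := Ideal.mem_span_singleton'.mp h2
        obtain ⟨y', rfl⟩ := hμ y
        have h3 : x - y' * lin f ∈ RingHom.ker μ.toRingHom := by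
          change μ (x - y' * lin f) = 0
          rw [map_sub, map_mul, hμlin, hy, sub_self]
        rw [hμker] at h3
        have h4 : x - y' * lin f ∈ T.1.asIdeal := Ideal.map_comap_le h3
        have h5 : y' * lin f ∈ T.1.asIdeal := Ideal.mul_mem_left _ _ hlin
        have h6 := Ideal.add_mem _ h4 h5
        rwa [sub_add_cancel] at h6
      obtain ⟨t, ht⟩ := ((s_PUSH k (MvPolynomial (Fin (m + 1)) R) (LR A fA) E ν hν
        (i + (m + 1))).2.2.2.1 (Finsupp.single T 1)).1 (GEN.supp_single T 1 hker)
      obtain ⟨κ, hκ1, hκ2⟩ := hSTE k A E m i (i + (m + 1)) fA l (by omega) t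
      -- push-forward
      have h1 : push E μ hμ (push E (mkL (k := k) fA) (mkL_surjective (k := k) fA) (t - κ)) ∈
          rat k (MvPolynomial (Fin (m + 1)) R) E (i + (m + 1)) := by
        have h2 := (s_PUSH k _ _ E μ hμ (i + (m + 1))).2.2.1 _ hκ2
        exact s_RON k _ E _ _ _ bot_le h2
      rw [← GEN.push_comp μ hμ (mkL (k := k) fA) (mkL_surjective (k := k) fA) hν, map_sub, ht] at h1
      have h2 : push E ν hν κ ∈ GEN.SS k E m i f := by
        have hlt : I < I ⊔ Ideal.span {f l} := by
          refine lt_of_le_of_ne le_sup_left (fun h => hl ?_)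
          rw [hne, h]
          exact Ideal.mem_sup_right (Ideal.mem_span_singleton_self _)
        refine ih _ hlt _ ?_
        intro P hP
        obtain ⟨P', hP', rfl⟩ := GEN.push_supp ν hν κ P hP
        have h3 := hκ1 P' hP'
        have h4 : mkL (k := k) fA (MvPolynomial.C (fA l)) ∈ P'.1.asIdeal :=
          h3 (Ideal.mem_span_singleton_self _)
        have h5 : RingHom.ker ν.toRingHom ≤ (pushP ν hν P').1.asIdeal := by
          intro x hx
          change ν x ∈ P'.1.asIdeal
          have h6 : ν x = 0 := hx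
          rw [h6]
          exact Ideal.zero_mem _
        rw [sup_le_iff, Ideal.map_sup, sup_le_iff]
        refine ⟨⟨?_, ?_⟩, ?_⟩
        · refine le_trans ?_ h5
          rw [← hne, ← hμker]
          intro x hx
          have h6 : μ x = 0 := hx
          change mkL (k := k) fA (μ x) = 0
          rw [h6, map_zero]
        · rw [Ideal.map_span, Set.image_singleton, Ideal.span_singleton_le_iff_mem]
          change ν (mC k R (m + 1) (f l)) ∈ P'.1.asIdeal
          have h6 : ν (mC k R (m + 1) (f l)) = mkL (k := k) fA (MvPolynomial.C (fA l)) := by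
            change mkL (k := k) fA (MvPolynomial.map q.toRingHom (MvPolynomial.C (f l))) = _
            rw [MvPolynomial.map_C]
            rfl
          rw [h6]
          exact h4
        · rw [Ideal.span_singleton_le_iff_mem]
          apply h5
          change mkL (k := k) fA (μ (lin f)) = 0
          rw [hμlin]
          exact Ideal.Quotient.eq_zero_iff_mem.mpr (Ideal.mem_span_singleton_self _)
      have h3 := Submodule.add_mem _ (GEN.rat_le_SS f h1) h2
      rwa [sub_add_cancel] at h3
  have h0 := claim ⊥ c (by rw [Ideal.map_bot, bot_sup_eq]; exact hc)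
  exact h0

end CGAP
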