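import Pool.Agent.CGAP.Stmts

/-!
# CGAP: two more statements (the zero form)
-/

set_option autoImplicit false

open Polynomial CategoryTheory AlgebraicGeometry

namespace CGAP

open Pool.Agent.Lib_helper55.Beil Pool.Agent.Lib_helper66.OneP CUB

universe v

/-- BNZ. As the second part of S_BND, for the varieties without nonzero cycle classes. -/
def S_BNZ : Prop := ∀ (k E : Type) [Field k] [Field E]
  (T : ∀ i : ℕ, Homology.{v} k E i), Extra T → ∀ (i C : ℕ),
  (∀ X : Var k, IsAffine X.X → CLZ (T i) X → chowDim E i X ≤ C) →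
    ∀ X : Var k, IsAffine X.X → CLZ (T i) X → CZ E i X

def M_BNZ : Prop := S_DBL.{v} → S_BNZ.{v}

/-- KEYZ. As S_KEY, without surjectivity (helper79): the `w_j` are subvarieties whose classes are a basis of the space spanned by all cycle classes; all cycle classes of `U` are zero. -/
def S_KEYZ : Prop := ∀ (k E : Type) [Field k] [Finite k] [Field E] [CharZero E]
  (T : ∀ i : ℕ, Homology.{v} k E i), Extra T →
  (∀ (i : ℕ) (X : Var k), IsAffine X.X → CLZ (T i) X → CZ E i X) →
  ∀ (i : ℕ) (X : Var k), IsAffine X.X → (T i).Inj X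

def M_KEYZ : Prop := S_GEN → S_KEYZ.{v}

end CGAP
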