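import Pool.Agent.CGAP.KEY
import Pool.Agent.CGAP.Stmts2

/-!
# CGAP, module KEYZ: as KEY, with the varieties on which all cycle classes vanish
-/

set_option autoImplicit false

open Polynomial CategoryTheory AlgebraicGeometry

namespace CGAP

open Pool.Agent.Lib_helper55.Beil Pool.Agent.Lib_helper66.OneP CUB CUB.Asm

universe v

open KEY in
theorem t_KEYZ : M_KEYZ.{v} := by
  intro hGEN k E _ _ _ _ T X hV i Y hY
  obtain ⟨R, _, _, _, ⟨s⟩⟩ := exists_aff Y
  rw [← inj_viso (T i) s, inj_iff_cls]
  -- primes whose classes form a basis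
  let g : RP k R i → (T i).H (2 * i) (aff k R) := fun p => cls T i (Finsupp.single p 1)
  obtain ⟨κ, a, ha, hspan, hlin⟩ := exists_linearIndependent' E g
  have hκ : Finite κ := hlin.finite
  have hfκ := Fintype.ofFinite κ
  have hS1 : ∀ z : RP k R i →₀ E, ∃ e : κ → E,
      cls T i z = cls T i (∑ j, Finsupp.single (a j) (e j)) := by
    intro z
    have h1 : cls T i z ∈ Submodule.span E (Set.range g) := by
      induction z using Finsupp.induction_linear with
      | zero => rw [map_zero]; exact Submodule.zero_mem _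
      | add c d hc hd => rw [map_add]; exact Submodule.add_mem _ hc hd
      | single p x =>
        have h2 : (Finsupp.single p x : RP k R i →₀ E) = x • Finsupp.single p 1 := by
          rw [Finsupp.smul_single, smul_eq_mul, mul_one]
        rw [h2, map_smul]
        exact Submodule.smul_mem _ _ (Submodule.subset_span ⟨p, rfl⟩)
    rw [← hspan] at h1
    obtain ⟨e, he⟩ := (Submodule.mem_span_range_iff_exists_fun E).mp h1
    refine ⟨e, ?_⟩
    rw [← he, map_sum]
    apply Finset.sum_congr rfl
    intro j _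
    have h2 : (Finsupp.single (a j) (e j) : RP k R i →₀ E) = e j • Finsupp.single (a j) 1 := by
      rw [Finsupp.smul_single, smul_eq_mul, mul_one]
    rw [h2, map_smul]
    rfl
  -- the ideal of the union
  let I : Ideal R := ⨅ j, (a j).1.asIdeal
  have hnoe : IsNoetherianRing R := Algebra.FiniteType.isNoetherianRing k R
  obtain ⟨m, f', hf'⟩ := Submodule.fg_iff_exists_fin_generating_family.mp
    (IsNoetherian.noetherian I)
  let f : Fin (m + 1) → R := Fin.cons 0 f'
  have hf : Ideal.span (Set.range f) = I := by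
    rw [Fin.range_cons]
    exact Submodule.span_insert_zero.trans hf'
  have hfI : ∀ j, f j ∈ I := by
    intro j
    rw [← hf]
    exact Ideal.subset_span ⟨j, rfl⟩
  have hfle : ∀ q : PrimeSpectrum R, (∀ j, f j ∈ q.asIdeal) → I ≤ q.asIdeal := by
    intro q hq
    rw [← hf, Ideal.span_le]
    rintro _ ⟨j, rfl⟩
    exact hq j
  -- the product with the affine space and the open subvariety
  let P := MvPolynomial (Fin (m + 1)) R
  let N := i + (m + 1)
  let U := Localization.Away (lin f)
  let φ : P →ₐ[k] U := awayHom k (lin f)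
  have hloc := isLocalization_awayHom (k := k) (lin f)
  have hopn : IsOpenImmersion (spm φ) := isOpenImmersion_away (lin f)
  have hGX := s_GX.2 k R (m + 1)
  obtain ⟨lam, hlam⟩ := hline T X s_PLIN s_GX s_GCO s_FPX R i (m + 1)
  -- the restriction of a cycle over the `a j` to `U` is zero
  have hres : ∀ (e : κ → E) (d : RP k P N →₀ E),
      IsPull k E (m + 1) (mC k R (m + 1)) (∑ j, Finsupp.single (a j) (e j)) d →
      IsPull k E 0 φ d 0 := by
    intro e d hd
    rw [isPull_zero_iff φ hopn]
    intro Q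
    rw [Finsupp.coe_zero, Pi.zero_apply]
    symm
    by_contra hne
    have h1 : rdim k (PrimeSpectrum.comap (mC k R (m + 1)).toRingHom (resP φ hopn Q).1) = i := by
      by_contra h2
      exact hne ((hd (resP φ hopn Q)).2 h2)
    have h2 := (hd (resP φ hopn Q)).1 h1
    rw [h2, Finsupp.finsetSum_apply] at hne
    obtain ⟨j, _, hj⟩ := Finset.exists_ne_zero_of_sum_ne_zero hne
    classical
    rw [Finsupp.single_apply] at hj
    have h3 : a j = ⟨PrimeSpectrum.comap (mC k R (m + 1)).toRingHom (resP φ hopn Q).1, h1⟩ := by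
      by_contra h4
      rw [if_neg h4] at hj
      exact hj rfl
    have h4 : ∀ l, (MvPolynomial.C (f l) : P) ∈ (resP φ hopn Q).1.asIdeal := by
      intro l
      have h5 : f l ∈ (a j).1.asIdeal := (Ideal.mem_iInf.mp (hfI l)) j
      rw [h3] at h5
      exact h5
    have h5 : (lin f : P) ∈ (resP φ hopn Q).1.asIdeal := by
      unfold lin
      exact Ideal.sum_mem _ fun l _ => Ideal.mul_mem_left _ _ (h4 l)
    have h6 : φ (lin f) ∈ Q.1.asIdeal := h5
    have h7 : IsUnit (φ (lin f)) := IsLocalization.Away.algebraMap_isUnit (S := U) (lin f)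
    exact Q.1.2.ne_top (Ideal.eq_top_of_isUnit_mem _ h6 h7)
  -- all classes on `U` vanish
  have hcls : ∀ c'' : RP k U N →₀ E, cls T N c'' = 0 := by
    intro c''
    obtain ⟨c, hc⟩ := (s_LOC k P U E φ (lin f) hloc N ⊥).2 c''
    obtain ⟨z, d, hd, hcd⟩ := (s_L0M k R E (m + 1)).1 i c
    obtain ⟨e, he⟩ := hS1 z
    obtain ⟨d₁, hd₁⟩ := s_FPX k R P E (m + 1) i (mC k R (m + 1)) hGX
      (∑ j, Finsupp.single (a j) (e j))
    have h1 : cls T N c = cls T N d := by
      have := cls_rat T N _ hcd
      rwa [map_sub, sub_eq_zero] at this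
    have h2 : cls T N d = cls T N d₁ := by
      rw [← hlam.cls z d hd, ← hlam.cls _ d₁ hd₁, he]
    rw [← cls_res T N φ hopn c c'' hc, h1, h2, cls_res T N φ hopn d₁ 0 (hres e d₁ hd₁),
      map_zero]
  have hCLZ : CLZ (T N) (aff k U) := by
    intro x
    obtain ⟨Q, rfl⟩ := (ptE (k := k) (A := U) N).surjective x
    have h1 := hcls (Finsupp.single Q 1)
    rwa [cls_single, one_smul] at h1
  have hCZ : ∀ c : RP k U N →₀ E, c ∈ rat k U E N := by
    intro c
    exact (cyE_mem c).mp (hV N (aff k U) inferInstance hCLZ _)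
  -- every cycle is a combination of the `a j`
  intro z hz
  obtain ⟨d, hd⟩ := s_FPX k R P E (m + 1) i (mC k R (m + 1)) hGX z
  obtain ⟨d', hd'⟩ := s_FPX k P U E 0 N φ (s_GLO k P U φ (lin f) hloc) d
  have hd'r : d' ∈ ratOn k E N ((⊥ : Ideal P).map φ.toRingHom) := by
    rw [Ideal.map_bot]
    exact hCZ d'
  obtain ⟨ρ, hρ, hsupp⟩ := (s_LOC k P U E φ (lin f) hloc N ⊥).1 d d' hd' hd'r
  obtain ⟨z₂, d₂, hz₂, hd₂, hκd⟩ := hGEN k R E m i f
    (fun q hq => rdim_le_of_inf a q (hfle q hq)) (d - ρ) hsupp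
  have hdd : d - d₂ ∈ rat k P E N := by
    have h1 := Submodule.add_mem _ hρ hκd
    have h2 : ρ + (d - ρ - d₂) = d - d₂ := by abel
    rwa [h2] at h1
  have hzz : z - z₂ ∈ rat k R E i := s_MVI k R E (m + 1) i (z - z₂) (d - d₂)
    (s_PLIN.1 k R P E (m + 1) i (mC k R (m + 1)) z z₂ d d₂ 0 hd hd₂).2.2.1 hdd
  have hz₂0 : z₂ = 0 := by
    have h1 : ∀ p, z₂ p ≠ 0 → ∃ j, a j = p := by
      intro p hp
      have h2 := hz₂ p hp
      rw [hf] at h2
      exact eq_of_inf a p h2
    have h2 := eq_sum a ha z₂ h1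
    have h3 : cls T i z₂ = 0 := by
      have := cls_rat T i _ hzz
      rw [map_sub, hz, zero_sub, neg_eq_zero] at this
      exact this
    have h4 : ∑ j, z₂ (a j) • g (a j) = 0 := by
      rw [← h3]
      conv_rhs => rw [h2]
      rw [map_sum]
      apply Finset.sum_congr rfl
      intro j _
      have h5 : (Finsupp.single (a j) (z₂ (a j)) : RP k R i →₀ E) =
          z₂ (a j) • Finsupp.single (a j) 1 := by
        rw [Finsupp.smul_single, smul_eq_mul, mul_one]
      rw [h5, map_smul]
    have h5 := Fintype.linearIndependent_iff.mp hlin (fun j => z₂ (a j)) h4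
    ext p
    by_contra h6
    obtain ⟨j, rfl⟩ := h1 p h6
    exact h6 (h5 j)
  rw [hz₂0, sub_zero] at hzz
  exact hzz

end CGAP
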