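import Pool.Agent.CGAP.Stmts

/-!
# CGAP: the zero set of `∑ t_j f_j` away from one of the functions
-/

set_option autoImplicit false

open Polynomial

namespace CGAP

open CUB

namespace LNB

variable {k R S B : Type} [Field k] [CommRing R] [CommRing S] [CommRing B]
  [Algebra k R] [Algebra k S] [Algebra k B] {m : ℕ}

/-- The image of the variable `t_j`. -/
noncomputable def var (f : Fin (m + 1) → R) (l : Fin (m + 1)) (σ : R →ₐ[k] S) (u : S) :
    Fin (m + 1) → MvPolynomial (Fin m) S :=
  l.insertNth ((- ∑ j : Fin m, MvPolynomial.X j *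
    MvPolynomial.C (σ (f (l.succAbove j)))) * MvPolynomial.C u)
    (fun j => MvPolynomial.X j)

/-- The homomorphism on the polynomial ring. -/
noncomputable def psi (f : Fin (m + 1) → R) (l : Fin (m + 1)) (σ : R →ₐ[k] S) (u : S) :
    MvPolynomial (Fin (m + 1)) R →ₐ[k] MvPolynomial (Fin m) S :=
  { MvPolynomial.eval₂Hom
      ((MvPolynomial.C : S →+* MvPolynomial (Fin m) S).comp σ.toRingHom)
      (var f l σ u) with
    commutes' := by
      intro c
      show MvPolynomial.eval₂Hom _ _ (MvPolynomial.C (algebraMap k R c)) = _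
      rw [MvPolynomial.eval₂Hom_C]
      show MvPolynomial.C (σ (algebraMap k R c)) = _
      rw [AlgHom.commutes]
      rfl }

theorem psi_C (f : Fin (m + 1) → R) (l : Fin (m + 1)) (σ : R →ₐ[k] S) (u : S) (r : R) :
    psi f l σ u (MvPolynomial.C r) = MvPolynomial.C (σ r) :=
  MvPolynomial.eval₂Hom_C _ _ _

theorem psi_X (f : Fin (m + 1) → R) (l : Fin (m + 1)) (σ : R →ₐ[k] S) (u : S)
    (j : Fin (m + 1)) : psi f l σ u (MvPolynomial.X j) = var f l σ u j :=
  MvPolynomial.eval₂Hom_X' _ _ _

theorem psi_lin (f : Fin (m + 1) → R) (l : Fin (m + 1)) (σ : R →ₐ[k] S) (u : S)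
    (hu : σ (f l) * u = 1) : psi f l σ u (lin f) = 0 := by
  unfold lin
  rw [map_sum, Fin.sum_univ_succAbove _ l]
  simp only [map_mul, psi_C, psi_X, var, Fin.insertNth_apply_same, Fin.insertNth_apply_succAbove]
  have h : (MvPolynomial.C (σ (f l)) : MvPolynomial (Fin m) S) * MvPolynomial.C u = 1 := by
    rw [← MvPolynomial.C_mul, hu, MvPolynomial.C_1]
  have h2 : (- ∑ j : Fin m, MvPolynomial.X j *
    MvPolynomial.C (σ (f (l.succAbove j))) : MvPolynomial (Fin m) S) *
      MvPolynomial.C u * MvPolynomial.C (σ (f l)) =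
      - ∑ j : Fin m, MvPolynomial.X j * MvPolynomial.C (σ (f (l.succAbove j))) := by
    rw [mul_assoc, mul_comm (MvPolynomial.C u), h, mul_one]
  rw [h2]
  ring

/-- The homomorphism on the quotient. -/
noncomputable def al (f : Fin (m + 1) → R) (l : Fin (m + 1)) (σ : R →ₐ[k] S) (u : S)
    (hu : σ (f l) * u = 1) : LR R f →ₐ[k] MvPolynomial (Fin m) S :=
  Ideal.Quotient.liftₐ _ (psi f l σ u) (by
    intro a ha
    rw [Ideal.mem_span_singleton] at ha
    obtain ⟨b, rfl⟩ := ha
    rw [map_mul, psi_lin f l σ u hu, zero_mul])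

theorem al_mk (f : Fin (m + 1) → R) (l : Fin (m + 1)) (σ : R →ₐ[k] S) (u : S)
    (hu : σ (f l) * u = 1) (t : MvPolynomial (Fin (m + 1)) R) :
    al f l σ u hu (mkL (k := k) f t) = psi f l σ u t := rfl

theorem mk_lin (f : Fin (m + 1) → R) : mkL (k := k) f (lin f) = 0 :=
  Ideal.Quotient.eq_zero_iff_mem.2 (Ideal.subset_span rfl)

end LNB

open LNB in
theorem t_LNB : S_LNB := by
  intro k R S B _ _ _ _ _ _ _ m f l σ φ hS hB
  letI aS : Algebra R S := σ.toRingHom.toAlgebra
  letI aB : Algebra (LR R f) B := φ.toRingHom.toAlgebra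
  haveI iS : IsLocalization.Away (f l) S := hS
  haveI iB : IsLocalization.Away (mkL (k := k) f (MvPolynomial.C (f l))) B := hB
  have algS : ∀ r : R, algebraMap R S r = σ r := fun r => rfl
  -- the inverse of `f l`
  obtain ⟨u, hu⟩ : ∃ u : S, σ (f l) * u = 1 := by
    have h := IsLocalization.Away.algebraMap_isUnit (S := S) (f l)
    obtain ⟨w, hw⟩ := h
    refine ⟨((w⁻¹ : Sˣ) : S), ?_⟩
    rw [← algS, ← hw]
    exact w.mul_inv
  let α : LR R f →ₐ[k] MvPolynomial (Fin m) S := al f l σ u hu
  have α_mk : ∀ t, α (mkL (k := k) f t) = psi f l σ u t := fun t => rfl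
  have hunit : IsUnit (α.toRingHom (mkL (k := k) f (MvPolynomial.C (f l)))) := by
    refine isUnit_iff_exists_inv.2 ⟨MvPolynomial.C u, ?_⟩
    show α (mkL (k := k) f (MvPolynomial.C (f l))) * _ = 1
    rw [α_mk, psi_C, ← MvPolynomial.C_mul, hu, MvPolynomial.C_1]
  let E : B →+* MvPolynomial (Fin m) S :=
    IsLocalization.Away.lift (mkL (k := k) f (MvPolynomial.C (f l))) hunit
  have hE : ∀ b : LR R f, E (φ b) = α b := fun b =>
    IsLocalization.Away.lift_eq (mkL (k := k) f (MvPolynomial.C (f l))) hunit b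
  -- the inverse
  let bR : R →+* LR R f :=
    ((mkL (k := k) f : MvPolynomial (Fin (m + 1)) R →ₐ[k] LR R f).toRingHom).comp
      (MvPolynomial.C : R →+* MvPolynomial (Fin (m + 1)) R)
  have hunit2 : IsUnit ((φ.toRingHom.comp bR) (f l)) :=
    IsLocalization.Away.algebraMap_isUnit (S := B) (mkL (k := k) f (MvPolynomial.C (f l)))
  let γ : S →+* B := IsLocalization.Away.lift (f l) hunit2
  have hγ : ∀ r : R, γ (σ r) = φ (mkL (k := k) f (MvPolynomial.C r)) := fun r =>
    IsLocalization.Away.lift_eq (f l) hunit2 r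
  let G : MvPolynomial (Fin m) S →+* B := MvPolynomial.eval₂Hom γ (fun j =>
    φ (mkL (k := k) f (MvPolynomial.X (l.succAbove j))))
  have G_C : ∀ s : S, G (MvPolynomial.C s) = γ s := fun s => MvPolynomial.eval₂Hom_C _ _ _
  have G_X : ∀ j : Fin m, G (MvPolynomial.X j) =
      φ (mkL (k := k) f (MvPolynomial.X (l.succAbove j))) :=
    fun j => MvPolynomial.eval₂Hom_X' _ _ _
  -- G ∘ α = φ
  have key1 : ∀ t : MvPolynomial (Fin (m + 1)) R,
      G (psi f l σ u t) = φ (mkL (k := k) f t) := by
    have h : (G.comp (psi f l σ u).toRingHom) =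
        φ.toRingHom.comp (mkL (k := k) f).toRingHom := by
      apply MvPolynomial.ringHom_ext
      · intro r
        show G (psi f l σ u (MvPolynomial.C r)) = φ (mkL (k := k) f (MvPolynomial.C r))
        rw [psi_C, G_C, hγ]
      · intro j
        show G (psi f l σ u (MvPolynomial.X j)) = φ (mkL (k := k) f (MvPolynomial.X j))
        rw [psi_X]
        rcases Fin.eq_self_or_eq_succAbove l j with rfl | ⟨i, rfl⟩
        · rw [var, Fin.insertNth_apply_same, map_mul, G_C, map_neg, map_sum]
          simp only [map_mul, G_C, G_X, hγ]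
          have h1 : γ u * φ (mkL (k := k) f (MvPolynomial.C (f j))) = 1 := by
            rw [← hγ, ← map_mul, mul_comm, hu, map_one]
          have h2 : φ (mkL (k := k) f (lin f)) = 0 := by rw [mk_lin, map_zero]
          have h3 : φ (mkL (k := k) f (lin f)) =
              φ (mkL (k := k) f (MvPolynomial.X j)) * φ (mkL (k := k) f (MvPolynomial.C (f j))) +
              ∑ i : Fin m, φ (mkL (k := k) f (MvPolynomial.X (j.succAbove i))) *
                φ (mkL (k := k) f (MvPolynomial.C (f (j.succAbove i)))) := by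
            simp only [← map_mul, ← map_sum, ← map_add]
            congr 2
            exact Fin.sum_univ_succAbove _ j
          rw [h3] at h2
          have h4 : - ∑ i : Fin m, φ (mkL (k := k) f (MvPolynomial.X (j.succAbove i))) *
                φ (mkL (k := k) f (MvPolynomial.C (f (j.succAbove i)))) =
              φ (mkL (k := k) f (MvPolynomial.X j)) *
                φ (mkL (k := k) f (MvPolynomial.C (f j))) := by
            linear_combination -h2
          rw [h4, mul_assoc, mul_comm (φ (mkL (k := k) f (MvPolynomial.C (f j)))), h1, mul_one]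
        · rw [var, Fin.insertNth_apply_succAbove, G_X]
    intro t
    exact RingHom.congr_fun h t
  have key2 : ∀ b : LR R f, G (α b) = φ b := by
    intro b
    obtain ⟨t, rfl⟩ := mkL_surjective (k := k) f b
    rw [α_mk, key1]
  have key3 : ∀ b : B, G (E b) = b := by
    have h : G.comp E = RingHom.id B := by
      apply IsLocalization.ringHom_ext
        (Submonoid.powers (mkL (k := k) f (MvPolynomial.C (f l))))
      refine RingHom.ext fun b => ?_
      show G (E (φ b)) = φ b
      rw [hE, key2]
    intro b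
    exact RingHom.congr_fun h b
  have key4 : ∀ s : S, E (γ s) = MvPolynomial.C s := by
    have h : E.comp γ = (MvPolynomial.C : S →+* MvPolynomial (Fin m) S) := by
      apply IsLocalization.ringHom_ext (Submonoid.powers (f l))
      refine RingHom.ext fun r => ?_
      show E (γ (σ r)) = MvPolynomial.C (σ r)
      rw [hγ, hE, α_mk, psi_C]
    intro s
    exact RingHom.congr_fun h s
  have key5 : ∀ j : Fin m, E (φ (mkL (k := k) f (MvPolynomial.X (l.succAbove j)))) =
      MvPolynomial.X j := by
    intro j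
    rw [hE, α_mk, psi_X, var, Fin.insertNth_apply_succAbove]
  have key6 : ∀ p : MvPolynomial (Fin m) S, E (G p) = p := by
    have h : E.comp G = RingHom.id _ := by
      apply MvPolynomial.ringHom_ext
      · intro s
        show E (G (MvPolynomial.C s)) = MvPolynomial.C s
        rw [G_C, key4]
      · intro j
        show E (G (MvPolynomial.X j)) = MvPolynomial.X j
        rw [G_X, key5]
    intro p
    exact RingHom.congr_fun h p
  let e : B ≃+* MvPolynomial (Fin m) S :=
    { E with
      invFun := G
      left_inv := key3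
      right_inv := key6 }
  refine ⟨AlgEquiv.ofRingEquiv (f := e) ?_, ?_, ?_⟩
  · intro c
    show E (algebraMap k B c) = _
    rw [← φ.commutes, hE, α.commutes]
  · intro r
    show E (φ (mkL (k := k) f (MvPolynomial.C r))) = _
    rw [hE, α_mk, psi_C]
  · exact key5

end CGAP
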