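import Pool.Agent.CGAP.Stmts

/-!
# CGAP: the multiplicity one
-/

set_option autoImplicit false

open Polynomial CategoryTheory AlgebraicGeometry

namespace CGAP

open Pool.Agent.Lib_helper55.Beil CUB CUB.Asm

namespace MUL

/-- length one -/
lemma len_one {A : Type} [CommRing A] (T : PrimeSpectrum A) (J : Ideal A) (hJ : J ≤ T.asIdeal)
    (h : ∀ x ∈ T.asIdeal, ∃ s : A, s ∉ T.asIdeal ∧ s * x ∈ J) : len J T = 1 := by
  have e : J.map (algebraMap A (Localization.AtPrime T.asIdeal)) =
      IsLocalRing.maximalIdeal (Localization.AtPrime T.asIdeal) := by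
    rw [← Localization.AtPrime.map_eq_maximalIdeal]
    refine le_antisymm (Ideal.map_mono hJ) ?_
    rw [Ideal.map_le_iff_le_comap]
    intro x hx
    obtain ⟨s, hs, hsx⟩ := h x hx
    rw [Ideal.mem_comap]
    exact (IsLocalization.algebraMap_mem_map_algebraMap_iff T.asIdeal.primeCompl
      (Localization.AtPrime T.asIdeal) J x).2 ⟨s, hs, hsx⟩
  unfold len
  rw [e]
  have h1 : IsSimpleModule (Localization.AtPrime T.asIdeal) (Localization.AtPrime T.asIdeal ⧸
      IsLocalRing.maximalIdeal (Localization.AtPrime T.asIdeal)) := by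
    rw [isSimpleModule_iff_isCoatom]
    exact (IsLocalRing.maximalIdeal.isMaximal _).out
  rw [Module.length_eq_one_iff.2 h1]
  rfl

/-- elements -/
lemma exists_mul {A B : Type} [CommRing A] [CommRing B] (φ : A →+* B) (P : PrimeSpectrum B)
    (I : Ideal A) (h : IsLocalRing.maximalIdeal (Localization.AtPrime P.asIdeal) ≤
      I.map ((algebraMap B (Localization.AtPrime P.asIdeal)).comp φ)) (y : B)
    (hy : y ∈ P.asIdeal) : ∃ s : B, s ∉ P.asIdeal ∧ s * y ∈ I.map φ := by
  have h1 : algebraMap B (Localization.AtPrime P.asIdeal) y ∈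
      (I.map φ).map (algebraMap B (Localization.AtPrime P.asIdeal)) := by
    rw [Ideal.map_map]
    apply h
    rw [← Localization.AtPrime.map_eq_maximalIdeal]
    exact Ideal.mem_map_of_mem _ hy
  obtain ⟨s, hs, hsy⟩ := (IsLocalization.algebraMap_mem_map_algebraMap_iff P.asIdeal.primeCompl
    (Localization.AtPrime P.asIdeal) (I.map φ) y).1 h1
  exact ⟨s, hs, hsy⟩

end MUL

theorem t_MUL : M_MUL := by
  intro hLNB k R _ _ _ _ m f l T hT hfl
  let P := MvPolynomial (Fin (m + 1)) R
  let mk : P →ₐ[k] LR R f := mkL (k := k) f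
  have hmk : Function.Surjective mk := mkL_surjective f
  let a : LR R f := mk (MvPolynomial.C (f l))
  let B := Localization.Away a
  let S := Localization.Away (f l)
  let φ : LR R f →ₐ[k] B := CS1.locA k a
  let σ : R →ₐ[k] S := CS1.locA k (f l)
  have hφl : @IsLocalization.Away (LR R f) _ a B _ φ.toRingHom.toAlgebra := CS1.isLoc k a
  have hσl : @IsLocalization.Away R _ (f l) S _ σ.toRingHom.toAlgebra := CS1.isLoc k _
  obtain ⟨e, he, -⟩ := hLNB k R S B m f l σ φ hσl hφl
  have hφ : Good k 0 φ := s_GLO k _ _ φ a hφl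
  have hσ : Good k 0 σ := s_GLO k _ _ σ (f l) hσl
  have hker : RingHom.ker mk.toRingHom = Ideal.span {lin f} := Ideal.mk_ker
  -- the prime of `LR R f`
  have hcomap : ∀ x : P, mk x ∈ T.asIdeal.map mk.toRingHom ↔ x ∈ T.asIdeal := by
    intro x
    have h1 : (T.asIdeal.map mk.toRingHom).comap mk.toRingHom = T.asIdeal := by
      rw [Ideal.comap_map_of_surjective' mk.toRingHom hmk, hker, sup_eq_left,
        Ideal.span_singleton_le_iff_mem]
      exact hT
    exact (Iff.of_eq (congrArg (x ∈ ·) h1) : x ∈ (T.asIdeal.map mk.toRingHom).comap mk.toRingHom ↔ _)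
  have hprime : (T.asIdeal.map mk.toRingHom).IsPrime := by
    refine Ideal.map_isPrime_of_surjective (f := mk.toRingHom) hmk ?_
    rw [hker, Ideal.span_singleton_le_iff_mem]
    exact hT
  let T0 : PrimeSpectrum (LR R f) := ⟨T.asIdeal.map mk.toRingHom, hprime⟩
  have hT0 : PrimeSpectrum.comap mk.toRingHom T0 = T := by
    apply PrimeSpectrum.ext
    ext x
    exact hcomap x
  have haT : a ∉ T0.asIdeal := fun h => hfl ((hcomap _).1 h)
  obtain ⟨T', hT'⟩ := LOC.exists_prime hφl T0 haT
  let T'' : PrimeSpectrum (MvPolynomial (Fin m) S) :=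
    PrimeSpectrum.comap e.symm.toAlgHom.toRingHom T'
  let q'' : PrimeSpectrum S := PrimeSpectrum.comap (mC k S m).toRingHom T''
  have hq : PrimeSpectrum.comap (mC k R (m + 1)).toRingHom T =
      PrimeSpectrum.comap σ.toRingHom q'' := by
    rw [← hT0, ← hT']
    apply PrimeSpectrum.ext
    ext r
    change φ (mk (MvPolynomial.C r)) ∈ T'.asIdeal ↔ e.symm (MvPolynomial.C (σ r)) ∈ T'.asIdeal
    rw [← he r, AlgEquiv.symm_apply_apply]
  have hd1 : rdim k T'' = rdim k T := by
    have h1 : rdim k T'' = rdim k T' := rdim_comap e.symm.toAlgHom e.symm.surjective T'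
    rw [h1, ← LOC.rdim_eq hφ T', hT', ← rdim_comap mk hmk T0, hT0]
  have hd2 : rdim k q'' = rdim k (PrimeSpectrum.comap (mC k R (m + 1)).toRingHom T) := by
    rw [hq, LOC.rdim_eq hσ]
  have hG := (s_GX.2 k S m).at' T''
  refine ⟨?_, fun hd => ?_⟩
  · rw [← hd1, ← hd2]
    exact hG.1
  have hmax := hG.2 (by
    show rdim k T'' = rdim k q'' + m
    rw [hd1, hd2]
    exact hd)
  have hqmap : q''.asIdeal = (PrimeSpectrum.comap (mC k R (m + 1)).toRingHom T).asIdeal.map
      σ.toRingHom := by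
    rw [hq]
    let _ : Algebra R S := σ.toRingHom.toAlgebra
    exact (IsLocalization.map_under (Submonoid.powers (f l)) S q''.asIdeal).symm
  obtain ⟨q, hqd⟩ : ∃ q, q = (PrimeSpectrum.comap (mC k R (m + 1)).toRingHom T).asIdeal :=
    ⟨_, rfl⟩
  have hqT : q.map (mC k R (m + 1)).toRingHom ≤ T.asIdeal := by
    rw [hqd]
    exact Ideal.map_comap_le
  rw [← hqd] at hqmap ⊢
  refine MUL.len_one T _ (sup_le hqT ((Ideal.span_singleton_le_iff_mem _).2 hT)) fun x hx => ?_
  have hxT0 : mk x ∈ T0.asIdeal := (hcomap x).2 hx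
  have hT0' : ∀ z, z ∈ T0.asIdeal ↔ φ z ∈ T'.asIdeal := by
    intro z
    rw [← hT']
    rfl
  obtain ⟨s, hs, hsy⟩ := MUL.exists_mul _ T'' q''.asIdeal hmax (e (φ (mk x))) (by
    show e.symm (e (φ (mk x))) ∈ T'.asIdeal
    rw [AlgEquiv.symm_apply_apply]
    exact (hT0' _).1 hxT0)
  have hs' : e.symm s ∉ T'.asIdeal := hs
  have hmem : e.symm s * φ (mk x) ∈ ((q.map (mC k R (m + 1)).toRingHom).map mk.toRingHom).map
      φ.toRingHom := by
    have h1 := Ideal.mem_map_of_mem e.symm.toAlgHom.toRingHom hsy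
    rw [hqmap, Ideal.map_map, Ideal.map_map] at h1
    rw [Ideal.map_map, Ideal.map_map]
    have h2 : ((e.symm.toAlgHom.toRingHom.comp (IsScalarTower.toAlgHom k S
        (MvPolynomial (Fin m) S)).toRingHom).comp σ.toRingHom) =
        (φ.toRingHom.comp mk.toRingHom).comp (mC k R (m + 1)).toRingHom := by
      ext r
      change e.symm (MvPolynomial.C (σ r)) = φ (mk (MvPolynomial.C r))
      rw [← he r, AlgEquiv.symm_apply_apply]
    rw [h2] at h1
    have h3 : e.symm (s * e (φ (mk x))) = e.symm s * φ (mk x) := by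
      rw [map_mul, AlgEquiv.symm_apply_apply]
    rw [← h3]
    exact h1
  let _ : Algebra (LR R f) B := φ.toRingHom.toAlgebra
  have hφl' : IsLocalization.Away a B := hφl
  obtain ⟨n, s0, hs0⟩ := IsLocalization.Away.surj a (e.symm s)
  have hs0' : e.symm s * φ a ^ n = φ s0 := hs0
  have hmem2 : algebraMap (LR R f) B (s0 * mk x) ∈
      ((q.map (mC k R (m + 1)).toRingHom).map mk.toRingHom).map (algebraMap (LR R f) B) := by
    show φ (s0 * mk x) ∈ ((q.map (mC k R (m + 1)).toRingHom).map mk.toRingHom).map φ.toRingHom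
    rw [map_mul, ← hs0', mul_right_comm]
    exact Ideal.mul_mem_right _ _ hmem
  obtain ⟨c, ⟨j, hj⟩, hc⟩ := (IsLocalization.algebraMap_mem_map_algebraMap_iff
    (Submonoid.powers a) B _ _).1 hmem2
  obtain ⟨s1, hs1⟩ := hmk (c * s0)
  refine ⟨s1, fun h => ?_, ?_⟩
  · have h1 : c * s0 ∈ T0.asIdeal := by
      rw [← hs1]
      exact (hcomap s1).2 h
    have h2 : s0 ∈ T0.asIdeal := by
      refine (hprime.mem_or_mem h1).resolve_left fun h2 => haT ?_
      rw [← hj] at h2
      exact hprime.mem_of_pow_mem j h2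
    have h3 := (hT0' s0).1 h2
    rw [← hs0'] at h3
    have h4 : φ a ^ n ∉ T'.asIdeal := by
      intro h4
      have h5 := T'.isPrime.mem_of_pow_mem n h4
      exact haT ((hT0' a).2 h5)
    exact hs' ((T'.isPrime.mem_or_mem h3).resolve_right h4)
  · have h1 : mk (s1 * x) ∈ (q.map (mC k R (m + 1)).toRingHom).map mk.toRingHom := by
      rw [map_mul, hs1, mul_assoc]
      exact hc
    have h2 : s1 * x ∈ ((q.map (mC k R (m + 1)).toRingHom).map mk.toRingHom).comap
        mk.toRingHom := h1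
    rw [Ideal.comap_map_of_surjective' mk.toRingHom hmk, hker] at h2
    exact h2

end CGAP
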