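import Pool.Agent.CGAP.Stmts
import Pool.Agent.Lib_helper55.Beil.Surj

/-!
# CGAP, module SMS: surjectivity and semisimplicity
-/

set_option autoImplicit false

open Polynomial CategoryTheory AlgebraicGeometry

namespace CGAP

open Pool.Agent.Lib_helper55.Beil Pool.Agent.Lib_helper66.OneP CUB

universe v

theorem t_SMS : S_SMS.{v} := by
  intro k E _ _ _ i T hfin hz X
  have hT : T.SmallVanish := by
    intro U hint haff _ hd _ _
    obtain ⟨O, hO, hO2⟩ := exists_small U hint hd (hfin U haff)
    obtain ⟨W, hW, hxW, hWO⟩ := exists_isAffineOpen_mem_and_subset hO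
    have haW : IsAffine (openVar U W).X := hW
    refine ⟨openVar U W, openVarIn U W, ⟨⟨genericPoint U.X, hxW⟩⟩, hz _ haW ?_⟩
    exact hO2 (openVar U W) (openVarIn U W) (by rw [range_openVarIn]; exact hWO)
  exact ⟨T.surj_of_good X (T.good_of_vanish hT X), T.semisimple_of_good X (T.good_of_vanish hT X)⟩

end CGAP
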