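import Pool.Agent.CGAP.Defs

/-!
# CGAP: the extension of a prime ideal to a polynomial ring in several variables
-/

set_option autoImplicit false

open Polynomial CategoryTheory AlgebraicGeometry

namespace CGAP

open Pool.Agent.Lib_helper55.Beil CUB CUB.Asm

variable {k R E : Type} [Field k] [CommRing R] [Algebra k R] [Field E]

lemma isPrime_mv (m : ℕ) (p : PrimeSpectrum R) :
    (p.asIdeal.map (MvPolynomial.C : R →+* MvPolynomial (Fin m) R)).IsPrime := by
  have := p.2
  have h1 : IsDomain (MvPolynomial (Fin m) R ⧸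
      p.asIdeal.map (MvPolynomial.C : R →+* MvPolynomial (Fin m) R)) :=
    (MvPolynomial.quotientEquivQuotientMvPolynomial (σ := Fin m)
      p.asIdeal).symm.toRingEquiv.toMulEquiv.isDomain _
  exact (Ideal.Quotient.isDomain_iff_prime _).mp h1

/-- The extension of a prime ideal to the polynomial ring. -/
noncomputable def mvP (m : ℕ) (p : PrimeSpectrum R) : PrimeSpectrum (MvPolynomial (Fin m) R) :=
  ⟨p.asIdeal.map MvPolynomial.C, isPrime_mv m p⟩

lemma mvP_asIdeal (m : ℕ) (p : PrimeSpectrum R) :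
    (mvP m p).asIdeal = p.asIdeal.map MvPolynomial.C := rfl

lemma mC_eq (m : ℕ) : (mC k R m).toRingHom = MvPolynomial.C := rfl

lemma comap_mvP (m : ℕ) (p : PrimeSpectrum R) :
    PrimeSpectrum.comap (mC k R m).toRingHom (mvP m p) = p := by
  apply PrimeSpectrum.ext
  ext a
  change MvPolynomial.C a ∈ p.asIdeal.map (MvPolynomial.C : R →+* MvPolynomial (Fin m) R) ↔
    a ∈ p.asIdeal
  rw [MvPolynomial.mem_map_C_iff]
  constructor
  · intro h
    have := h 0
    rwa [MvPolynomial.coeff_C, if_pos rfl] at this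
  · intro h n
    rw [MvPolynomial.coeff_C]
    split_ifs
    · exact h
    · exact p.asIdeal.zero_mem

lemma mvP_le (m : ℕ) (p : PrimeSpectrum R) (P : PrimeSpectrum (MvPolynomial (Fin m) R))
    (h : p ≤ PrimeSpectrum.comap (mC k R m).toRingHom P) : mvP m p ≤ P :=
  Ideal.map_le_iff_le_comap.mpr h

lemma rdim_mvP (m : ℕ) (p : PrimeSpectrum R) : rdim k (mvP m p) = rdim k p + m := by
  have := p.2
  let D := R ⧸ p.asIdeal
  have h1 : Algebra.trdeg k (MvPolynomial (Fin m) D) = Algebra.trdeg k D + m := by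
    have hf : FaithfulSMul k D := (faithfulSMul_iff_algebraMap_injective k D).mpr
      (algebraMap k D).injective
    have hf2 : FaithfulSMul D (MvPolynomial (Fin m) D) :=
      (faithfulSMul_iff_algebraMap_injective D (MvPolynomial (Fin m) D)).mpr
        (MvPolynomial.C_injective _ _)
    have h2 := trdeg_add_eq k D (A := MvPolynomial (Fin m) D)
    rw [MvPolynomial.trdeg_of_isDomain] at h2
    simp only [Cardinal.mk_fin, Cardinal.lift_natCast] at h2
    exact h2.symm
  let e : MvPolynomial (Fin m) D ≃ₐ[k] (MvPolynomial (Fin m) R ⧸ (mvP m p).asIdeal) :=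
    (MvPolynomial.quotientEquivQuotientMvPolynomial (σ := Fin m) p.asIdeal).restrictScalars k
  unfold rdim
  rw [← e.trdeg_eq, h1]

/-- The extension of a prime, as a point. -/
noncomputable def mvPt (m : ℕ) {n : ℕ} (p : RP k R n) : RP k (MvPolynomial (Fin m) R) (n + m) :=
  ⟨mvP m p.1, by
    rw [rdim_mvP, p.2]
    push_cast
    rfl⟩

lemma mvPt_injective (m : ℕ) {n : ℕ} : Function.Injective (mvPt (k := k) (R := R) m (n := n)) := by
  intro p q h
  apply Subtype.ext
  rw [← comap_mvP (k := k) m p.1, ← comap_mvP (k := k) m q.1]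
  exact congrArg (PrimeSpectrum.comap (mC k R m).toRingHom) (congrArg Subtype.val h)

/-- A prime of dimension `n + m` whose restriction has dimension at most `n` is an extension. -/
lemma eq_mvPt [Algebra.FiniteType k R] (m : ℕ) {n : ℕ} (P : RP k (MvPolynomial (Fin m) R) (n + m))
    (h : rdim k (PrimeSpectrum.comap (mC k R m).toRingHom P.1) = n) :
    P = mvPt m ⟨PrimeSpectrum.comap (mC k R m).toRingHom P.1, h⟩ := by
  apply Subtype.ext
  symm
  apply eq_of_le_of_rdim_eq (k := k)
  · exact mvP_le (k := k) m _ _ le_rfl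
  · exact (mvPt m ⟨PrimeSpectrum.comap (mC k R m).toRingHom P.1, h⟩).2.trans P.2.symm

lemma le_rdim_comap [Algebra.FiniteType k R] (m : ℕ) (P : PrimeSpectrum (MvPolynomial (Fin m) R)) :
    rdim k P ≤ rdim k (PrimeSpectrum.comap (mC k R m).toRingHom P) + m :=
  ((s_GX.2 k R m).at' P).1

/-- Flat pull-back to a polynomial ring. -/
theorem isPull_mv_iff [Algebra.FiniteType k R] (m : ℕ) {n : ℕ} (c : RP k R n →₀ E)
    (d : RP k (MvPolynomial (Fin m) R) (n + m) →₀ E) :
    IsPull k E m (mC k R m) c d ↔ d = Finsupp.mapDomain (mvPt m) c := by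
  have h1 : ∀ (P : RP k (MvPolynomial (Fin m) R) (n + m))
      (h : rdim k (PrimeSpectrum.comap (mC k R m).toRingHom P.1) = n),
      Finsupp.mapDomain (mvPt m) c P =
        c ⟨PrimeSpectrum.comap (mC k R m).toRingHom P.1, h⟩ := fun P h =>
    (congrArg (Finsupp.mapDomain (mvPt m) c) (eq_mvPt m P h)).trans
      (Finsupp.mapDomain_apply (mvPt_injective m) c _)
  have h2 : ∀ (P : RP k (MvPolynomial (Fin m) R) (n + m)),
      rdim k (PrimeSpectrum.comap (mC k R m).toRingHom P.1) ≠ n →
      Finsupp.mapDomain (mvPt m) c P = 0 := by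
    intro P h
    apply Finsupp.mapDomain_of_notMem_range
    rintro ⟨p, rfl⟩
    exact h ((congrArg (rdim k) (comap_mvP (k := k) m p.1)).trans p.2)
  constructor
  · intro h
    ext P
    by_cases hP : rdim k (PrimeSpectrum.comap (mC k R m).toRingHom P.1) = n
    · exact ((h P).1 hP).trans (h1 P hP).symm
    · exact ((h P).2 hP).trans (h2 P hP).symm
  · rintro rfl P
    exact ⟨h1 P, h2 P⟩

end CGAP
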