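import Pool.Agent.CGAP.Stmts
import Pool.Agent.CGAP.MvP

/-!
# CGAP: one step of the reduction of cycles on the zero set of `∑ t_j f_j`
-/

set_option autoImplicit false

open Polynomial CategoryTheory AlgebraicGeometry

namespace CGAP

open Pool.Agent.Lib_helper55.Beil CUB CUB.Asm

namespace STE

variable {k R E : Type} [Field k] [CommRing R] [Algebra k R] [Field E]

/-- Cycles on a ring which is isomorphic to a polynomial ring. -/
lemma isoStep (k S B E : Type) [Field k] [CommRing S]
    [CommRing B] [Algebra k S] [Algebra k B] [Algebra.FiniteType k S] [Algebra.FiniteType k B]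
    [Field E] (m n : ℕ) (e : B ≃ₐ[k] MvPolynomial (Fin m) S) (c : RP k B (n + m) →₀ E) :
    ∃ z : RP k S n →₀ E,
      c - push E e.toAlgHom e.surjective (Finsupp.mapDomain (mvPt m) z) ∈ rat k B E (n + m) := by
  obtain ⟨z, d, hd, hc⟩ := (s_L0M k S E m).1 n (push E e.symm.toAlgHom e.symm.surjective c)
  rw [isPull_mv_iff] at hd
  subst hd
  refine ⟨z, (s_PCO.2.2.1 k _ _ E _ e.symm _).1 ?_⟩
  rw [map_sub]
  have h2 : push E e.symm.toAlgHom e.symm.surjective
      (push E e.toAlgHom e.surjective (Finsupp.mapDomain (mvPt m) z)) =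
      Finsupp.mapDomain (mvPt m) z :=
    CS1.push_push_symm s_PCO k (MvPolynomial (Fin m) S) B E (n + m) e.symm _
  rw [h2]
  exact hc

lemma coeff_lin {m : ℕ} (f : Fin m → R) (l : Fin m) :
    (lin f).coeff (Finsupp.single l 1) = f l := by
  classical
  unfold lin
  rw [MvPolynomial.coeff_sum, Finset.sum_eq_single l]
  · rw [mul_comm, MvPolynomial.coeff_C_mul, MvPolynomial.coeff_X, if_pos rfl, mul_one]
  · intro j _ hj
    rw [mul_comm, MvPolynomial.coeff_C_mul, MvPolynomial.coeff_X, if_neg, mul_zero]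
    intro h
    exact hj (Finsupp.single_left_injective one_ne_zero h)
  · intro h
    exact absurd (Finset.mem_univ l) h

lemma lin_notMem {m : ℕ} (f : Fin m → R) (l : Fin m) (p : PrimeSpectrum R)
    (h : f l ∉ p.asIdeal) : lin f ∉ (mvP m p).asIdeal := by
  intro h1
  apply h
  have h2 := MvPolynomial.mem_map_C_iff.mp h1 (Finsupp.single l 1)
  rwa [coeff_lin] at h2

lemma pushP_inj {A B : Type} [CommRing A] [CommRing B] [Algebra k A] [Algebra k B] {n : ℕ}
    (φ : A →ₐ[k] B) (hφ : Function.Surjective φ) :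
    Function.Injective (pushP (k := k) (n := n) φ hφ) := by
  intro P Q h
  exact Subtype.ext (PrimeSpectrum.comap_injective_of_surjective φ.toRingHom hφ
    (congrArg Subtype.val h))

lemma comap_inj {A B : Type} [CommRing A] [CommRing B] (φ : A →+* B) (a : A)
    (h : @IsLocalization.Away A _ a B _ φ.toAlgebra) :
    Function.Injective (PrimeSpectrum.comap φ) := by
  let : Algebra A B := φ.toAlgebra
  exact PrimeSpectrum.localization_comap_injective B (Submonoid.powers a)

/-- The divisor of `lin f` on the extension of `q`. -/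
lemma exists_dv [Algebra.FiniteType k R] (m i : ℕ) (f : Fin (m + 1) → R) (l : Fin (m + 1))
    (q : RP k R (i + 1)) (hq : f l ∉ q.1.asIdeal) :
    ∃ c : RP k (LR R f) (i + 1 + m) →₀ E,
      push E (mkL (k := k) f) (mkL_surjective f) c ∈
        rat k (MvPolynomial (Fin (m + 1)) R) E (i + 1 + m) ∧
      IsDv k E (mvP (m + 1) q.1) (lin f) (push E (mkL (k := k) f) (mkL_surjective f) c) := by
  have h1 : lin f ∉ (mvP (m + 1) q.1).asIdeal := lin_notMem f l q.1 hq
  let Q : RP k (MvPolynomial (Fin (m + 1)) R) (i + 1 + m + 1) := mvPt (m + 1) q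
  obtain ⟨c, hc⟩ := s_DVX k (MvPolynomial (Fin (m + 1)) R) E (i + 1 + m) Q (lin f) h1
  have hker : RingHom.ker (mkL (k := k) f).toRingHom = Ideal.span {lin f} :=
    Ideal.mk_ker
  have hs : SuppOn k E (RingHom.ker (mkL (k := k) f).toRingHom) c := by
    intro p hp
    rw [hker, Ideal.span_singleton_le_iff_mem]
    have h2 := hc p
    have h3 : len (Q.1.asIdeal ⊔ Ideal.span {lin f}) p.1 ≠ 0 := by
      intro h4
      rw [h4, Nat.cast_zero] at h2
      exact hp h2
    exact ((s_LENC k _ (i + 1 + m) Q p).2.1 (lin f) h3).2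
  obtain ⟨c', rfl⟩ := ((s_PUSH k _ _ E (mkL (k := k) f) (mkL_surjective f)
    (i + 1 + m)).2.2.2.1 c).1 hs
  exact ⟨c', Submodule.subset_span ⟨Q, lin f, bot_le, h1, hc⟩, hc⟩

end STE

theorem t_STE : M_STE := by
  intro hLNB hMUL k R E _ _ _ _ _ m i N f l hN t
  subst hN
  let P := MvPolynomial (Fin (m + 1)) R
  let mk : P →ₐ[k] LR R f := mkL (k := k) f
  have hmk : Function.Surjective mk := mkL_surjective f
  let a : LR R f := mk (MvPolynomial.C (f l))
  let B := Localization.Away a
  let S := Localization.Away (f l)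
  let φ : LR R f →ₐ[k] B := CS1.locA k a
  let σ : R →ₐ[k] S := CS1.locA k (f l)
  have hφl : @IsLocalization.Away (LR R f) _ a B _ φ.toRingHom.toAlgebra := CS1.isLoc k a
  have hσl : @IsLocalization.Away R _ (f l) S _ σ.toRingHom.toAlgebra := CS1.isLoc k _
  obtain ⟨e, he, -⟩ := hLNB k R S B m f l σ φ hσl hφl
  have hφ : Good k 0 φ := s_GLO k _ _ φ a hφl
  have hφo : IsOpenImmersion (spm φ) := isOpenImmersion_spm φ a hφl
  have hσo : IsOpenImmersion (spm σ) := isOpenImmersion_spm σ (f l) hσl
  obtain ⟨tB, htB⟩ := s_FPX k (LR R f) B E 0 (i + 1 + m) φ hφ t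
  obtain ⟨z, hz⟩ := STE.isoStep k S B E m (i + 1) e tB
  -- the points of `S`
  have hres : ∀ q : RP k S (i + 1), f l ∉ (resP σ hσo q).1.asIdeal := by
    intro q hq
    have h1 : (resP σ hσo q).1 ∈ Set.range (PrimeSpectrum.comap σ.toRingHom) := ⟨q.1, rfl⟩
    rw [range_spm_away σ (f l) hσl] at h1
    exact h1 hq
  choose c hc1 hc2 using fun q : RP k S (i + 1) =>
    STE.exists_dv (k := k) (E := E) m i f l (resP σ hσo q) (hres q)
  let w : RP k S (i + 1) → RP k B (i + 1 + m) := fun q =>
    pushP e.toAlgHom e.surjective (mvPt m q)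
  -- the restriction of the divisor
  have hcomp : ∀ (T' : PrimeSpectrum B), PrimeSpectrum.comap (mC k R (m + 1)).toRingHom
      (PrimeSpectrum.comap mk.toRingHom (PrimeSpectrum.comap φ.toRingHom T')) =
      PrimeSpectrum.comap σ.toRingHom (PrimeSpectrum.comap (mC k S m).toRingHom
        (PrimeSpectrum.comap e.symm.toAlgHom.toRingHom T')) := by
    intro T'
    apply PrimeSpectrum.ext
    ext r
    change φ (mk (MvPolynomial.C r)) ∈ T'.asIdeal ↔ e.symm (MvPolynomial.C (σ r)) ∈ T'.asIdeal
    rw [← he r, AlgEquiv.symm_apply_apply]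
  have hpull : ∀ q : RP k S (i + 1), IsPull k E 0 φ (c q) (Finsupp.single (w q) 1) := by
    intro q
    rw [isPull_zero_iff φ hφo]
    intro T'
    let T : RP k P (i + 1 + m) := pushP mk hmk (resP φ hφo T')
    have h1 : (c q) (resP φ hφo T') = push E mk hmk (c q) T :=
      (Finsupp.mapDomain_apply (STE.pushP_inj mk hmk) (c q) _).symm
    rw [h1, hc2 q T]
    have hlin : lin f ∈ T.1.asIdeal := by
      change mk (lin f) ∈ (resP φ hφo T').1.asIdeal
      have h2 : mk (lin f) = 0 := by
        change Ideal.Quotient.mk _ (lin f) = 0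
        rw [Ideal.Quotient.eq_zero_iff_mem]
        exact Ideal.mem_span_singleton_self _
      rw [h2]
      exact Ideal.zero_mem _
    have hfl : MvPolynomial.C (f l) ∉ T.1.asIdeal := by
      intro h2
      have h3 : (resP φ hφo T').1 ∈ Set.range (PrimeSpectrum.comap φ.toRingHom) := ⟨T'.1, rfl⟩
      rw [range_spm_away φ a hφl] at h3
      exact h3 h2
    obtain ⟨hm1, hm2⟩ := hMUL k R m f l T.1 hlin hfl
    let p := PrimeSpectrum.comap (mC k R (m + 1)).toRingHom T.1
    have hp : p = PrimeSpectrum.comap σ.toRingHom (PrimeSpectrum.comap (mC k S m).toRingHom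
        (PrimeSpectrum.comap e.symm.toAlgHom.toRingHom T'.1)) := hcomp T'.1
    by_cases hpq : p = (resP σ hσo q).1
    · have hd : rdim k p = (i + 1 : ℕ) := by
        rw [hpq]
        exact (resP σ hσo q).2
      have h4 : T' = w q := by
        let T'' : RP k (MvPolynomial (Fin m) S) (i + 1 + m) :=
          pushP e.symm.toAlgHom e.symm.surjective T'
        have h5 : PrimeSpectrum.comap (mC k S m).toRingHom T''.1 = q.1 := by
          have h6 := hp.symm.trans hpq
          exact STE.comap_inj σ.toRingHom (f l) hσl h6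
        have h7 : T'' = mvPt m q := by
          have h8 : rdim k (PrimeSpectrum.comap (mC k S m).toRingHom T''.1) = (i + 1 : ℕ) := by
            rw [h5]
            exact q.2
          rw [eq_mvPt m T'' h8]
          congr 1
          exact Subtype.ext h5
        apply Subtype.ext
        change T'.1 = PrimeSpectrum.comap e.toAlgHom.toRingHom (mvPt m q).1
        rw [← h7]
        apply PrimeSpectrum.ext
        ext b
        change b ∈ T'.1.asIdeal ↔ e.symm (e b) ∈ T'.1.asIdeal
        rw [AlgEquiv.symm_apply_apply]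
      rw [h4, Finsupp.single_eq_same]
      have h9 := hm2 (by
        rw [T.2]
        change _ = rdim k p + m
        rw [hd]
        push_cast
        rfl)
      have h10 : len ((mvP (m + 1) (resP σ hσo q).1).asIdeal ⊔ Ideal.span {lin f}) T.1 = 1 := by
        rw [mvP_asIdeal, ← hpq]
        exact h9
      rw [h10, Nat.cast_one]
    · have h4 : T' ≠ w q := by
        rintro rfl
        apply hpq
        rw [hp]
        change _ = PrimeSpectrum.comap σ.toRingHom q.1
        congr 1
        have h5 := comap_mvP (k := k) m q.1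
        rw [← h5]
        congr 1
        apply PrimeSpectrum.ext
        ext b
        change e (e.symm b) ∈ (mvP m q.1).asIdeal ↔ b ∈ (mvP m q.1).asIdeal
        rw [AlgEquiv.apply_symm_apply]
      rw [Finsupp.single_eq_of_ne h4]
      have h5 : len ((mvP (m + 1) (resP σ hσo q).1).asIdeal ⊔ Ideal.span {lin f}) T.1 = 0 := by
        by_contra h6
        let Q : RP k P (i + 1 + m + 1) := mvPt (m + 1) (resP σ hσo q)
        have h7 := ((s_LENC k P (i + 1 + m) Q T).2.1 (lin f) h6).1
        have h8 : (resP σ hσo q).1 ≤ p := by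
          have h9 := comap_mvP (k := k) (m + 1) (resP σ hσo q).1
          rw [← h9]
          exact Ideal.comap_mono h7
        have h10 : (resP σ hσo q).1 < p := lt_of_le_of_ne h8 (Ne.symm hpq)
        have h11 := rdim_add_one_le (k := k) h10
        obtain ⟨n', hn'⟩ := exists_rdim (k := k) p
        have h12 : ((i + 1 + m : ℕ) : Cardinal) ≤ rdim k p + m := T.2.symm.trans_le hm1
        rw [(resP σ hσo q).2, hn'] at h11
        rw [hn'] at h12
        have h13 : n' + 1 ≤ i + 1 := by exact_mod_cast h11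
        have h14 : i + 1 + m ≤ n' + m := by exact_mod_cast h12
        omega
      rw [h5, Nat.cast_zero]
  -- linear combinations
  let c' : (RP k S (i + 1) →₀ E) →ₗ[E] (RP k (LR R f) (i + 1 + m) →₀ E) :=
    Finsupp.linearCombination E c
  let d' : (RP k S (i + 1) →₀ E) →ₗ[E] (RP k B (i + 1 + m) →₀ E) :=
    (push E e.toAlgHom e.surjective).comp (Finsupp.lmapDomain E E (mvPt m))
  have hsingle : ∀ (q : RP k S (i + 1)) (x : E), d' (Finsupp.single q x) =
      x • Finsupp.single (w q) 1 := by
    intro q x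
    change Finsupp.mapDomain (pushP e.toAlgHom e.surjective)
      (Finsupp.mapDomain (mvPt m) (Finsupp.single q x)) = _
    rw [Finsupp.mapDomain_single, Finsupp.mapDomain_single, Finsupp.smul_single, smul_eq_mul,
      mul_one]
  have hpull' : ∀ z : RP k S (i + 1) →₀ E, IsPull k E 0 φ (c' z) (d' z) := by
    intro z
    induction z using Finsupp.induction_linear with
    | zero =>
      rw [map_zero, map_zero]
      exact (s_PLIN.1 k _ _ E 0 _ φ t t tB tB 0 htB htB).2.2.2.2
    | add x y hx hy =>
      rw [map_add, map_add]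
      exact (s_PLIN.1 k _ _ E 0 _ φ _ _ _ _ 0 hx hy).2.1
    | single q x =>
      rw [hsingle]
      change IsPull k E 0 φ (Finsupp.linearCombination E c (Finsupp.single q x)) _
      rw [Finsupp.linearCombination_single]
      exact (s_PLIN.1 k _ _ E 0 _ φ _ _ _ _ x (hpull q) (hpull q)).2.2.2.1
  have h1 : IsPull k E 0 φ (t - c' z) (tB - d' z) :=
    (s_PLIN.1 k _ _ E 0 _ φ _ _ _ _ 0 htB (hpull' z)).2.2.1
  have h2 : tB - d' z ∈ ratOn k E (i + 1 + m) ((⊥ : Ideal (LR R f)).map φ.toRingHom) := by
    rw [Ideal.map_bot]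
    exact hz
  obtain ⟨ρ, hρ, hsupp⟩ := (s_LOC k (LR R f) B E φ a hφl (i + 1 + m) ⊥).1 _ _ h1 h2
  refine ⟨t - c' z - ρ, hsupp, ?_⟩
  have h3 : t - (t - c' z - ρ) = c' z + ρ := by abel
  rw [h3, map_add]
  refine Submodule.add_mem _ ?_ ?_
  · have h4 : ∀ z : RP k S (i + 1) →₀ E, push E mk hmk (c' z) ∈ rat k P E (i + 1 + m) := by
      intro z
      induction z using Finsupp.induction_linear with
      | zero =>
        rw [map_zero, map_zero]
        exact Submodule.zero_mem _
      | add x y hx hy =>
        rw [map_add, map_add]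
        exact Submodule.add_mem _ hx hy
      | single q x =>
        change push E mk hmk (Finsupp.linearCombination E c (Finsupp.single q x)) ∈ _
        rw [Finsupp.linearCombination_single, map_smul]
        exact Submodule.smul_mem _ x (hc1 q)
    exact h4 z
  · exact s_RON k P E (i + 1 + m) ⊥ _ bot_le
      ((s_PUSH k P (LR R f) E mk hmk (i + 1 + m)).2.2.1 ρ hρ)

end CGAP
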