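import Pool.Agent.CGAP.Stmts

/-!
# TRA: transport of `Ctl` along isomorphisms
-/

set_option autoImplicit false

open Polynomial CategoryTheory AlgebraicGeometry

namespace CGAP

open Pool.Agent.Lib_helper55.Beil Pool.Agent.Lib_helper66.OneP CUB

universe v

namespace TRA

variable {k : Type} [Field k] {E : Type} [Field E] {i : ℕ} {X Y : Var k}

lemma map_symm (s : VIso X Y) (c : Pts i X →₀ E) :
    Finsupp.mapDomain (ptsMap i s.symm.cl) (Finsupp.mapDomain (ptsMap i s.cl) c) = c := by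
  rw [← Finsupp.mapDomain_comp]
  have h4 : ptsMap i s.symm.cl ∘ ptsMap i s.cl = id := funext fun x => (s.pts i).left_inv x
  rw [h4, Finsupp.mapDomain_id]

lemma map_symm' (s : VIso X Y) (c : Pts i Y →₀ E) :
    Finsupp.mapDomain (ptsMap i s.cl) (Finsupp.mapDomain (ptsMap i s.symm.cl) c) = c := by
  rw [← Finsupp.mapDomain_comp]
  have h4 : ptsMap i s.cl ∘ ptsMap i s.symm.cl = id := funext fun x => (s.pts i).right_inv x
  rw [h4, Finsupp.mapDomain_id]

lemma cz (s : VIso X Y) (h : CZ E i X) : CZ E i Y := by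
  intro c
  have h1 := ratZero_map s.cl _ (h (Finsupp.mapDomain (ptsMap i s.symm.cl) c))
  rwa [map_symm'] at h1

lemma chow (s : VIso X Y) : ∃ L : Chow E i X →ₗ[E] Chow E i Y, Function.Injective L := by
  refine ⟨Submodule.mapQ (ratZero E i X) (ratZero E i Y) (Finsupp.lmapDomain E E (ptsMap i s.cl))
    (fun c hc => ratZero_map s.cl c hc), ?_⟩
  rw [injective_iff_map_eq_zero]
  intro a ha
  obtain ⟨c, rfl⟩ := (ratZero E i X).mkQ_surjective a
  have h1 : Finsupp.mapDomain (ptsMap i s.cl) c ∈ ratZero E i Y := by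
    rw [← Submodule.Quotient.mk_eq_zero]
    exact ha
  have h2 := ratZero_map s.symm.cl _ h1
  rw [map_symm] at h2
  exact (Submodule.Quotient.mk_eq_zero _).mpr h2

lemma inv (T : Homology.{v} k E i) (s : VIso X Y) :
    ∃ M : invariants T X →ₗ[E] invariants T Y, Function.Injective M := by
  refine ⟨(T.push (2 * i) s.cl).restrict (p := invariants T X) (q := invariants T Y)
    (fun m hm => ?_), ?_⟩
  · rw [mem_invariants] at hm ⊢
    rw [← T.push_frob, hm]
  · intro a b hab
    apply Subtype.ext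
    apply (push_viso_bijective T (2 * i) s).injective
    exact congrArg Subtype.val hab

lemma hz (T : Homology.{v} k E i) (s : VIso X Y) (h : HZ T X) : HZ T Y := by
  intro m hm
  obtain ⟨x, rfl⟩ := (push_viso_bijective T (2 * i) s).surjective m
  have h1 : T.F (2 * i) X x = x := by
    apply (push_viso_bijective T (2 * i) s).injective
    rw [T.equivariant.1]
    exact hm
  rw [h x h1]
  exact map_zero (T.push (2 * i) s.cl)

lemma clz (T : Homology.{v} k E i) (s : VIso X Y) (h : CLZ T X) : CLZ T Y := by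
  intro y
  obtain ⟨x, rfl⟩ := (s.pts i).surjective y
  have h1 := T.functorial.1 X Y s.cl x (ptsMap i s.cl x).2
  rw [h x] at h1
  exact h1.symm.trans (map_zero (T.push (2 * i) s.cl))

end TRA

theorem t_TRA : S_TRA.{v} := by
  intro k E _ _ T i j X' X V V' sX sV h
  refine ⟨fun h1 => TRA.cz sV (h.cz (TRA.cz sX h1)), ?_, ?_, fun h1 h2 => ?_,
    fun h1 => TRA.clz (T j) sV (h.clz (TRA.clz (T i) sX h1))⟩
  · obtain ⟨L1, hL1⟩ := TRA.chow (E := E) (i := i) sX
    obtain ⟨L2, hL2⟩ := h.chow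
    obtain ⟨L3, hL3⟩ := TRA.chow (E := E) (i := j) sV
    exact ⟨L3.comp (L2.comp L1), hL3.comp (hL2.comp hL1)⟩
  · obtain ⟨L1, hL1⟩ := TRA.inv (T i) sX
    obtain ⟨L2, hL2⟩ := h.inv
    obtain ⟨L3, hL3⟩ := TRA.inv (T j) sV
    exact ⟨L3.comp (L2.comp L1), hL3.comp (hL2.comp hL1)⟩
  · exact TRA.hz (T j) sV (h.surj ((surj_viso T j sV).mpr h1) (TRA.hz (T i) sX h2))

end CGAP
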