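import Pool.Agent.CGAP.Stmts

/-!
# CGAP: module VCH (the double cover controls the variety: cycles)
-/

set_option autoImplicit false

open Polynomial CategoryTheory AlgebraicGeometry

namespace CGAP

open Pool.Agent.Lib_helper55.Beil Pool.Agent.Lib_helper66.OneP CUB CUB.Asm

namespace VCH

/-- push-forward along a surjective homomorphism preserves rational equivalence -/
lemma push_rat {k A B E : Type} [Field k] [CommRing A] [CommRing B] [Algebra k A] [Algebra k B]
    [Field E] (φ : A →ₐ[k] B) (hφ : Function.Surjective φ) {n : ℕ} (c : RP k B n →₀ E)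
    (hc : c ∈ rat k B E n) : push E φ hφ c ∈ rat k A E n :=
  s_RON k A E n ⊥ (RingHom.ker φ.toRingHom) bot_le ((s_PUSH k A B E φ hφ n).2.2.1 c hc)

/-- pull-back to a polynomial ring preserves rational equivalence -/
lemma pull_rat {k R E : Type} [Field k] [CommRing R] [Algebra k R] [Algebra.FiniteType k R]
    [Field E] (m n : ℕ) (z : RP k R n →₀ E) (d : RP k (MvPolynomial (Fin m) R) (n + m) →₀ E)
    (h : IsPull k E m (IsScalarTower.toAlgHom k R (MvPolynomial (Fin m) R)) z d)
    (hz : z ∈ rat k R E n) : d ∈ rat k (MvPolynomial (Fin m) R) E (n + m) := by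
  have h1 := s_FP k R (MvPolynomial (Fin m) R) E m n _ (s_GX.2 k R m) ⊥ z d h hz
  rw [Ideal.map_bot] at h1
  exact h1

/-- there is a linear pull-back map -/
lemma exists_D {k R E : Type} [Field k] [CommRing R] [Algebra k R] [Algebra.FiniteType k R]
    [Field E] (m n : ℕ) : ∃ D : (RP k R n →₀ E) →ₗ[E] (RP k (MvPolynomial (Fin m) R) (n + m) →₀ E),
    ∀ z, IsPull k E m (IsScalarTower.toAlgHom k R (MvPolynomial (Fin m) R)) z (D z) := by
  classical
  have h1 : ∀ p : RP k R n, ∃ d : RP k (MvPolynomial (Fin m) R) (n + m) →₀ E,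
      IsPull k E m (IsScalarTower.toAlgHom k R (MvPolynomial (Fin m) R))
        (Finsupp.single p (1 : E)) d := fun p =>
    s_FPX k R (MvPolynomial (Fin m) R) E m n _ (s_GX.2 k R m) (Finsupp.single p 1)
  choose d hd using h1
  refine ⟨Finsupp.linearCombination E d, fun z => ?_⟩
  induction z using Finsupp.induction_linear with
  | zero =>
    rw [map_zero]
    intro P
    exact ⟨fun _ => rfl, fun _ => rfl⟩
  | add a b ha hb =>
    rw [map_add]
    exact (s_PLIN.1 k R (MvPolynomial (Fin m) R) E m n _ a b _ _ 1 ha hb).2.1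
  | single p a =>
    rw [Finsupp.linearCombination_single]
    have h2 := (s_PLIN.1 k R (MvPolynomial (Fin m) R) E m n _ _ _ _ _ a (hd p) (hd p)).2.2.2.1
    rw [Finsupp.smul_single, smul_eq_mul, mul_one] at h2
    exact h2

end VCH

theorem t_VCH : S_VCH := by
  intro k R R' E _ _ _ _ _ _ _ _ _ _ m i f ψ hψ hker hR
  have h : ∀ j, ψ (f j) = 0 := by
    intro j
    have h1 : f j ∈ RingHom.ker ψ.toRingHom := by
      rw [hker]
      exact Ideal.subset_span ⟨j, rfl⟩
    exact (RingHom.mem_ker).1 h1
  constructor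
  · intro hR' ζ
    obtain ⟨z₀, z₁, d₀, d₁, h0, h1, h2⟩ := s_CSU k R R' E m i f ψ hψ h hker hR ζ
    have e0 := VCH.push_rat (sheet ψ f h false) (sheet_surjective ψ hψ f h false) d₀
      (VCH.pull_rat (m + 1) i z₀ d₀ h0 (hR' z₀))
    have e1 := VCH.push_rat (sheet ψ f h true) (sheet_surjective ψ hψ f h true) d₁
      (VCH.pull_rat (m + 1) i z₁ d₁ h1 (hR' z₁))
    have h3 := Submodule.add_mem _ (Submodule.add_mem _ h2 e0) e1
    have h4 : ζ - push E (sheet ψ f h false) (sheet_surjective ψ hψ f h false) d₀ -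
        push E (sheet ψ f h true) (sheet_surjective ψ hψ f h true) d₁ +
        push E (sheet ψ f h false) (sheet_surjective ψ hψ f h false) d₀ +
        push E (sheet ψ f h true) (sheet_surjective ψ hψ f h true) d₁ = ζ := by
      abel
    rw [h4] at h3
    exact h3
  · obtain ⟨D, hD⟩ := VCH.exists_D (k := k) (R := R') (E := E) (m + 1) i
    refine ⟨(push E (sheet ψ f h false) (sheet_surjective ψ hψ f h false)).comp D -
      (push E (sheet ψ f h true) (sheet_surjective ψ hψ f h true)).comp D, fun z => ?_⟩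
    constructor
    · intro hz
      exact s_CIN k R R' E m i f ψ hψ h hker z (D z) (hD z) hz
    · intro hz
      have h1 := VCH.pull_rat (m + 1) i z (D z) (hD z) hz
      exact Submodule.sub_mem _
        (VCH.push_rat (sheet ψ f h false) (sheet_surjective ψ hψ f h false) (D z) h1)
        (VCH.push_rat (sheet ψ f h true) (sheet_surjective ψ hψ f h true) (D z) h1)

end CGAP
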