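import Pool.Agent.CGAP.Stmts

/-!
# CGAP, module VHO: the homology of the double cover controls the homology of the variety
-/

set_option autoImplicit false

open Polynomial CategoryTheory AlgebraicGeometry

namespace CGAP

open Pool.Agent.Lib_helper55.Beil Pool.Agent.Lib_helper66.OneP CUB

universe v

namespace VHO

open CUB.Asm

section

variable {k : Type} [Field k] {E : Type} [Field E]
  (T : ∀ i : ℕ, Homology.{v} k E i)
  {R R' : Type} [CommRing R] [CommRing R'] [Algebra k R] [Algebra k R']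
  [Algebra.FiniteType k R] [Algebra.FiniteType k R']

/-- The first part. -/
theorem first (X : Extra T) [CharZero E] (i m : ℕ) (f : Fin (m + 1) → R)
    (ψ : R →ₐ[k] R') (hψ : Function.Surjective ψ)
    (hk : RingHom.ker ψ.toRingHom = Ideal.span (Set.range f)) (h : ∀ j, ψ (f j) = 0) :
    ∃ M : (T i).H (2 * i) (aff k R') →ₗ[E]
        (T (i + (m + 1))).H (2 * (i + (m + 1))) (aff k (VR R f)),
      Function.Injective M ∧ ∀ a, M ((T i).F (2 * i) _ a) = (T (i + (m + 1))).F _ _ (M a) := by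
  obtain ⟨lam, hlam⟩ := hline T X s_PLIN s_GX s_GCO s_FPX R' i (m + 1)
  have h' : ∀ j, AlgHom.id k R' (ψ (f j)) = 0 := h
  -- the two sheets and the double cover
  let N := i + (m + 1)
  let g : Fin (m + 1) → R' := fun j => ψ (f j)
  let s0 := sheet (AlgHom.id k R') g h' false
  let s1 := sheet (AlgHom.id k R') g h' true
  have hs0 : Function.Surjective s0 := sheet_surjective _ Function.surjective_id _ h' false
  have hs1 : Function.Surjective s1 := sheet_surjective _ Function.surjective_id _ h' true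
  let I0 := (T N).push (2 * N) (clo s0 hs0)
  let I1 := (T N).push (2 * N) (clo s1 hs1)
  let V := (T N).push (2 * N) (clo (VRmap ψ f) (VRmap_surjective ψ hψ f))
  let τ := (T N).push (2 * N) (vcl (tau (k := k) (lin g)))
  -- the sheets are exchanged
  have hτ0 : ∀ x, τ (I0 x) = I1 x := fun x => X.push_comp N (2 * N) _ _ _ (clo s0 hs0)
    (vcl (tau (k := k) (lin g))) (clo s1 hs1) (by
      change spm s0 ≫ spm (tauH (k := k) (lin g)) = spm s1
      rw [spm_comp]
      exact congrArg spm (sheet_tau (AlgHom.id k R') g h')) x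
  have hττ : ∀ x, τ (τ x) = x := fun x => P_tau_tau T X N (2 * N) (lin g) x
  have hτ1 : ∀ x, τ (I1 x) = I0 x := fun x => by rw [← hτ0, hττ]
  refine ⟨(V.comp (I0 - I1)).comp lam, ?_, ?_⟩
  · rw [injective_iff_map_eq_zero]
    intro α hα
    let a := lam α
    let δ := I0 a - I1 a
    have hVδ : V δ = 0 := hα
    have hτδ : τ δ = -δ := by
      change τ (I0 a - I1 a) = -(I0 a - I1 a)
      rw [map_sub, hτ0, hτ1]
      abel
    have hδ : δ = 0 := by
      refine hchain T X s_KERQ s_VRL (i + m) (2 * (i + m) + 1) m (List.finRange (m + 1)) f ψ hψ ?_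
        δ hτδ hVδ
      rw [hk]
      congr 1
      ext x
      simp
    have hw : I0 a = I1 a := sub_eq_zero.mp hδ
    -- restriction to the first sheet
    have hloc := isLocalization_sheet_false (k := k) g h'
    have hc := complementary_away s0 (1 - yy (lin g)) hloc s1 hs1 (ker_sheet_true g h')
    have e0 : (T N).R (2 * N) (opn s0 (isOpenImmersion_spm s0 _ hloc)) (I0 a) = a :=
      X.clopen N (2 * N) _ _ (clo s0 hs0) (opn s0 (isOpenImmersion_spm s0 _ hloc)) rfl a
    have e1 : (T N).R (2 * N) (opn s0 (isOpenImmersion_spm s0 _ hloc)) (I1 a) = 0 :=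
      (((T N).localisation (2 * N) _ _ _ _ _ hc).1 (I1 a)).mpr ⟨a, rfl⟩
    rw [hw, e1] at e0
    have e2 : lam α = lam 0 := by
      rw [map_zero]
      exact e0.symm
    exact hlam.inj e2
  · intro α
    change V (I0 (lam ((T i).F (2 * i) _ α)) - I1 (lam ((T i).F (2 * i) _ α))) =
      (T N).F (2 * N) _ (V (I0 (lam α) - I1 (lam α)))
    rw [hlam.frob α]
    have e1 := (T N).equivariant.1 (2 * N) _ _ (clo (VRmap ψ f) (VRmap_surjective ψ hψ f))
      (I0 (lam α) - I1 (lam α))
    have e2 := (T N).equivariant.1 (2 * N) _ _ (clo s0 hs0) (lam α)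
    have e3 := (T N).equivariant.1 (2 * N) _ _ (clo s1 hs1) (lam α)
    have e4 : (T N).F (2 * N) _ (I0 (lam α) - I1 (lam α)) =
        I0 ((T N).F (2 * N) _ (lam α)) - I1 ((T N).F (2 * N) _ (lam α)) := by
      change (T N).frob (2 * N) _ (I0 (lam α) - I1 (lam α)) = _
      rw [map_sub]
      exact congrArg₂ (· - ·) e2.symm e3.symm
    rw [e4] at e1
    exact e1

/-- The third part. -/
theorem third (X : Extra T) [PerfectField k] [CharZero E] (i m : ℕ) (f : Fin (m + 1) → R)
    (ψ : R →ₐ[k] R') (hψ : Function.Surjective ψ)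
    (hk : RingHom.ker ψ.toRingHom = Ideal.span (Set.range f)) (h : ∀ j, ψ (f j) = 0)
    (hzr : ∀ z : RP k R i →₀ E, z ∈ rat k R E i)
    (hz : ∀ z : RP k R' i →₀ E, cls T i z = 0) (ζ : RP k (VR R f) (i + (m + 1)) →₀ E) :
    cls T (i + (m + 1)) ζ = 0 := by
  obtain ⟨lam, hlam⟩ := hline T X s_PLIN s_GX s_GCO s_FPX R' i (m + 1)
  obtain ⟨z₀, z₁, d₀, d₁, hd₀, hd₁, hrat⟩ := s_CSU k R R' E m i f ψ hψ h hk hzr ζ
  have hb0 : cls T (i + (m + 1)) d₀ = 0 := by
    rw [← hlam.cls z₀ d₀ hd₀, hz, map_zero]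
  have hb1 : cls T (i + (m + 1)) d₁ = 0 := by
    rw [← hlam.cls z₁ d₁ hd₁, hz, map_zero]
  have e1 := cls_rat T (i + (m + 1)) _ hrat
  rw [map_sub, map_sub, ← cls_push, ← cls_push, hb0, hb1, P_zero, P_zero, sub_zero, sub_zero] at e1
  exact e1

/-- The second part. -/
theorem second (X : Extra T) [PerfectField k] [CharZero E] (i m : ℕ) (f : Fin (m + 1) → R)
    (ψ : R →ₐ[k] R') (hψ : Function.Surjective ψ)
    (hk : RingHom.ker ψ.toRingHom = Ideal.span (Set.range f)) (h : ∀ j, ψ (f j) = 0)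
    (hzr : ∀ z : RP k R i →₀ E, z ∈ rat k R E i)
    (hS : (T (i + (m + 1))).Surj (aff k (VR R f))) (hZ : HZ (T i) (aff k R')) :
    HZ (T (i + (m + 1))) (aff k (VR R f)) := by
  rw [surj_iff_cls] at hS
  intro μ hμ
  obtain ⟨ζ, rfl⟩ := hS μ hμ
  exact third T X i m f ψ hψ hk h hzr (fun z => hZ _ (cls_frob T i z)) ζ

end

end VHO

/-- VHO. -/
theorem t_VHO : S_VHO.{v} := by
  intro k E _ _ _ _ T X R R' _ _ _ _ _ _ m i f ψ hψ hk hzr
  have h : ∀ j, ψ (f j) = 0 := by
    intro j
    have h1 : f j ∈ RingHom.ker ψ.toRingHom := by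
      rw [hk]
      exact Ideal.subset_span ⟨j, rfl⟩
    exact h1
  exact ⟨VHO.first T X i m f ψ hψ hk h, VHO.second T X i m f ψ hψ hk h hzr,
    VHO.third T X i m f ψ hψ hk h hzr⟩

end CGAP
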