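import Pool.Agent.CGAP.Fin
import Pool.Agent.CGAP.AFC
import Pool.Agent.CGAP.BND
import Pool.Agent.CGAP.BNZ
import Pool.Agent.CGAP.DBL
import Pool.Agent.CGAP.FAM
import Pool.Agent.CGAP.GEN
import Pool.Agent.CGAP.KEY
import Pool.Agent.CGAP.KEYZ
import Pool.Agent.CGAP.LNB
import Pool.Agent.CGAP.MUL
import Pool.Agent.CGAP.SMS
import Pool.Agent.CGAP.STE
import Pool.Agent.CGAP.TRA
import Pool.Agent.CGAP.VCH
import Pool.Agent.CGAP.VHO

/-!
# CGAP: assembly of all modules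
-/

set_option autoImplicit false

namespace CGAP

namespace Asm

universe v

theorem s_FAM : S_FAM.{v} := t_FAM.{v} t_VCH t_VHO.{v} t_TRA.{v} t_AFC.{v}

theorem s_BND : S_BND.{v} := t_BND.{v} t_DBL.{v}

theorem s_BNZ : S_BNZ.{v} := t_BNZ.{v} t_DBL.{v}

theorem s_SMS : S_SMS.{v} := t_SMS.{v}

theorem s_MUL : S_MUL := t_MUL t_LNB

theorem s_GEN : S_GEN := t_GEN (t_STE t_LNB s_MUL)

theorem s_KEY : S_KEY.{v} := t_KEY.{v} s_GEN

theorem s_KEYZ : S_KEYZ.{v} := t_KEYZ.{v} s_GEN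

end Asm

end CGAP
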