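import Pool.Agent.CUB.Asm
import Pool.Agent.CUBH.Defs
import Pool.Agent.Lib_helper66.OneP.Num

/-!
# CGAP: the gap theorem (definitions for the modules)
-/

set_option autoImplicit false

open Polynomial CategoryTheory AlgebraicGeometry

namespace CGAP

open Pool.Agent.Lib_helper55.Beil Pool.Agent.Lib_helper66.OneP CUB

universe v

variable {k : Type} [Field k]

/-- All `i`-dimensional cycles are rationally equivalent to zero. -/
def CZ (E : Type) [Field E] (i : ℕ) (X : Var k) : Prop := ∀ c : Pts i X →₀ E, c ∈ ratZero E i X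

/-- Frobenius has no invariants in `H (2 * i) X`. -/
def HZ {E : Type} [Field E] {i : ℕ} (T : Homology.{v} k E i) (X : Var k) : Prop :=
  ∀ m : T.H (2 * i) X, T.F (2 * i) X m = m → m = 0

/-- All cycle classes of `i`-dimensional cycles are zero. -/
def CLZ {E : Type} [Field E] {i : ℕ} (T : Homology.{v} k E i) (X : Var k) : Prop :=
  ∀ x : Pts i X, T.cl X x = 0

/-- The variety `V` (in dimension `j`) controls the variety `X` (in dimension `i`). -/
structure Ctl {E : Type} [Field E] (T : ∀ i : ℕ, Homology.{v} k E i) (i j : ℕ) (X V : Var k) :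
    Prop where
  cz : CZ E i X → CZ E j V
  chow : ∃ L : Chow E i X →ₗ[E] Chow E j V, Function.Injective L
  inv : ∃ M : invariants (T i) X →ₗ[E] invariants (T j) V, Function.Injective M
  surj : (T j).Surj V → HZ (T i) X → HZ (T j) V
  clz : CLZ (T i) X → CLZ (T j) V

/-- The coordinate ring of the zero set of `∑ t_j f_j` in the product of `Spec R` and an affine
space. -/
abbrev LR {m : ℕ} (R : Type) [CommRing R] (f : Fin m → R) : Type :=
  MvPolynomial (Fin m) R ⧸ Ideal.span {lin f}

/-- The quotient map. -/
noncomputable def mkL {m : ℕ} {R : Type} [CommRing R] [Algebra k R] (f : Fin m → R) :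
    MvPolynomial (Fin m) R →ₐ[k] LR R f :=
  Ideal.Quotient.mkₐ k _

lemma mkL_surjective {m : ℕ} {R : Type} [CommRing R] [Algebra k R] (f : Fin m → R) :
    Function.Surjective (mkL (k := k) f) := Ideal.Quotient.mkₐ_surjective k _

/-- The inclusion of the coefficients. -/
noncomputable abbrev mC (k R : Type) [Field k] [CommRing R] [Algebra k R] (m : ℕ) :
    R →ₐ[k] MvPolynomial (Fin m) R := IsScalarTower.toAlgHom k R (MvPolynomial (Fin m) R)

end CGAP
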