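import Pool.Agent.CGAP.Stmts2
import Pool.Agent.CUB2.Asm2

/-!
# CGAP: the final assembly
-/

set_option autoImplicit false

open Polynomial CategoryTheory AlgebraicGeometry Cardinal

namespace CGAP

open Pool.Agent.Lib_helper55.Beil Pool.Agent.Lib_helper66.OneP CUB

universe v

namespace Fin

variable {k : Type} [Field k] {E : Type} [Field E]

lemma chowDim_zero {i : ℕ} {X : Var k} : chowDim E i X = 0 ↔ CZ E i X := by
  rw [chowDim, rank_zero_iff]
  constructor
  · intro h c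
    have h1 : (ratZero E i X).mkQ c = 0 := Subsingleton.elim _ _
    rwa [Submodule.mkQ_apply, Submodule.Quotient.mk_eq_zero] at h1
  · intro h
    refine ⟨fun a b => ?_⟩
    obtain ⟨c, rfl⟩ := (ratZero E i X).mkQ_surjective a
    obtain ⟨d, rfl⟩ := (ratZero E i X).mkQ_surjective b
    rw [← sub_eq_zero, ← map_sub, Submodule.mkQ_apply, Submodule.Quotient.mk_eq_zero]
    exact h (c - d)

lemma invDim_zero {i : ℕ} (T : Homology.{v} k E i) {X : Var k} : invDim T X = 0 ↔ HZ T X := by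
  rw [invDim, Submodule.finrank_eq_zero, Submodule.eq_bot_iff]
  constructor
  · intro h m hm
    exact h m ((mem_invariants T X m).mpr hm)
  · intro h m hm
    exact h m ((mem_invariants T X m).mp hm)

lemma Ctl.finite {T : ∀ i : ℕ, Homology.{v} k E i} {i j : ℕ} {X V : Var k} (h : Ctl T i j X V)
    (hV : chowDim E j V < ℵ₀) : Module.Finite E (Chow E i X) := by
  obtain ⟨L, hL⟩ := h.chow
  have : Module.Finite E (Chow E j V) := Module.rank_lt_aleph0_iff.mp hV
  exact Module.Finite.of_injective L hL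

lemma Ctl.chow_le {T : ∀ i : ℕ, Homology.{v} k E i} {i j : ℕ} {X V : Var k} (h : Ctl T i j X V) :
    chowDim E i X ≤ chowDim E j V := by
  obtain ⟨L, hL⟩ := h.chow
  exact LinearMap.rank_le_of_injective L hL

lemma Ctl.inv_le {T : ∀ i : ℕ, Homology.{v} k E i} {i j : ℕ} {X V : Var k} (h : Ctl T i j X V) :
    invDim (T i) X ≤ invDim (T j) V := by
  obtain ⟨M, hM⟩ := h.inv
  exact LinearMap.finrank_le_finrank_of_injective hM

/-- The hypothesis of the theorem. -/
def Gap (T : ∀ i : ℕ, Homology.{v} k E i) (C j : ℕ) (V : Var k) : Prop :=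
  chowDim E j V < ℵ₀ ∧ (chowDim E j V = 0 → invDim (T j) V ≤ C) ∧
    (invDim (T j) V = 0 → chowDim E j V ≤ C)

/-- The gap theorem. -/
theorem gap (hFAM : S_FAM.{v}) (hBND : S_BND.{v}) (hSMS : S_SMS.{v}) (hKEY : S_KEY.{v}) [Finite k]
    [CharZero E] (B : Set k) (hB : Subring.closure B = ⊤) (T : ∀ i : ℕ, Homology.{v} k E i)
    (hT : Full T) (C : ℕ)
    (h : ∀ (n : ℕ) (H : Finset (Finset (Fin (3 * n)))) (c : Fin (3 * n) → k), Sparse H →
      (∀ v, c v = 0 ∨ c v ∈ B) → Smooth (cubic (hyp H c)).f → Gap T C (2 * n) (cubic (hyp H c)))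
    (i : ℕ) (X : Var k) : (T i).Inj X ∧ (T i).Surj X ∧ (T i).Semisimple X := by
  have hF : ∀ (i : ℕ) (X : Var k), IsAffine X.X → ∃ (j : ℕ) (V : Var k), Gap T C j V ∧
      Ctl T i j X V := by
    intro i X hX
    obtain ⟨n, H, c, h1, h2, h3, h4⟩ := hFAM k E B hB T hT.toExtra i X hX
    exact ⟨2 * n, cubic (hyp H c), h n H c h1 h2 h3, h4⟩
  have hfin : ∀ (i : ℕ) (X : Var k), IsAffine X.X → Module.Finite E (Chow E i X) := by
    intro i X hX
    obtain ⟨j, V, h1, h2⟩ := hF i X hX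
    exact Ctl.finite h2 h1.1
  have hz : ∀ (i : ℕ) (X : Var k), IsAffine X.X → CZ E i X → HZ (T i) X := by
    intro i
    refine (hBND k E T hT.toExtra i C).1 ?_
    intro X hX hc
    obtain ⟨j, V, h1, h2⟩ := hF i X hX
    exact (Ctl.inv_le h2).trans (h1.2.1 (chowDim_zero.mpr (h2.cz hc)))
  have hS : ∀ (i : ℕ) (X : Var k), (T i).Surj X ∧ (T i).Semisimple X := fun i =>
    hSMS k E i (T i) (hfin i) (hz i)
  have hv : ∀ (i : ℕ) (X : Var k), IsAffine X.X → HZ (T i) X → CZ E i X := by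
    intro i
    refine (hBND k E T hT.toExtra i C).2.1 ?_
    intro X hX hc
    obtain ⟨j, V, h1, h2⟩ := hF i X hX
    exact (Ctl.chow_le h2).trans
      (h1.2.2 ((invDim_zero (T j)).mpr (h2.surj (hS j V).1 hc)))
  have hA : ∀ (i : ℕ) (X : Var k), IsAffine X.X → (T i).InjC X := fun i X hX =>
    ((T i).inj_iff X).mp (hKEY k E T hT.toExtra (fun i X _ => (hS i X).1) hv i X hX)
  exact ⟨((T i).inj_iff X).mpr (Asm2.s_IND.{v} k E T hT hS hA i X), (hS i X).1, (hS i X).2⟩

/-- If Frobenius has no invariants for the affine varieties without cycle classes then the cycle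
class maps are onto and the eigenvalue one is semisimple. -/
theorem of_clz [Finite k] {i : ℕ} (T : Homology.{v} k E i)
    (h : ∀ X : Var k, IsAffine X.X → CLZ T X → HZ T X) (X : Var k) :
    T.Surj X ∧ T.Semisimple X := by
  have hT : T.SmallVanish := by
    intro U _ hU _ _ _ h0
    exact ⟨U, ⟨𝟙 _, Category.id_comp _, inferInstance⟩, inferInstance, h U hU h0⟩
  exact ⟨T.surj_of_good X (T.good_of_vanish hT X), T.semisimple_of_good X (T.good_of_vanish hT X)⟩

/-- The zero form of the gap theorem. -/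
theorem zero (hFAM : S_FAM.{v}) (hBND : S_BND.{v}) (hBNZ : S_BNZ.{v}) (hKEYZ : S_KEYZ.{v})
    [Finite k] [CharZero E] (B : Set k) (hB : Subring.closure B = ⊤)
    (T : ∀ i : ℕ, Homology.{v} k E i) (hT : Full T) (C : ℕ)
    (h : ∀ (n : ℕ) (H : Finset (Finset (Fin (3 * n)))) (c : Fin (3 * n) → k), Sparse H →
      (∀ v, c v = 0 ∨ c v ∈ B) → Smooth (cubic (hyp H c)).f →
      CLZ (T (2 * n)) (cubic (hyp H c)) → chowDim E (2 * n) (cubic (hyp H c)) ≤ C ∧
        invDim (T (2 * n)) (cubic (hyp H c)) ≤ C)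
    (i : ℕ) (X : Var k) : (T i).Inj X ∧ (T i).Surj X ∧ (T i).Semisimple X := by
  have hF : ∀ (i : ℕ) (X : Var k), IsAffine X.X → CLZ (T i) X →
      chowDim E i X ≤ C ∧ invDim (T i) X ≤ C := by
    intro i X hX hc
    obtain ⟨n, H, c, h1, h2, h3, h4⟩ := hFAM k E B hB T hT.toExtra i X hX
    obtain ⟨h5, h6⟩ := h n H c h1 h2 h3 (h4.clz hc)
    exact ⟨(Ctl.chow_le h4).trans h5, (Ctl.inv_le h4).trans h6⟩
  have hS : ∀ (i : ℕ) (X : Var k), (T i).Surj X ∧ (T i).Semisimple X := fun i =>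
    of_clz (T i) ((hBND k E T hT.toExtra i C).2.2 fun X hX hc => (hF i X hX hc).2)
  have hv : ∀ (i : ℕ) (X : Var k), IsAffine X.X → CLZ (T i) X → CZ E i X := fun i =>
    hBNZ k E T hT.toExtra i C fun X hX hc => (hF i X hX hc).1
  have hA : ∀ (i : ℕ) (X : Var k), IsAffine X.X → (T i).InjC X := fun i X hX =>
    ((T i).inj_iff X).mp (hKEYZ k E T hT.toExtra hv i X hX)
  exact ⟨((T i).inj_iff X).mpr (Asm2.s_IND.{v} k E T hT hS hA i X), (hS i X).1, (hS i X).2⟩

/-- The gap theorem for the Tate conjecture. -/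
theorem tate (hFAM : S_FAM.{v}) (hBND : S_BND.{v}) [Finite k]
    [CharZero E] (B : Set k) (hB : Subring.closure B = ⊤) (T : ∀ i : ℕ, Homology.{v} k E i)
    (hT : Extra T) (C : ℕ)
    (h : ∀ (n : ℕ) (H : Finset (Finset (Fin (3 * n)))) (c : Fin (3 * n) → k), Sparse H →
      (∀ v, c v = 0 ∨ c v ∈ B) → Smooth (cubic (hyp H c)).f →
      CLZ (T (2 * n)) (cubic (hyp H c)) → invDim (T (2 * n)) (cubic (hyp H c)) ≤ C)
    (i : ℕ) (X : Var k) : (T i).Surj X ∧ (T i).Semisimple X := by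
  refine of_clz (T i) ?_ X
  refine (hBND k E T hT i C).2.2 ?_
  intro X hX hc
  obtain ⟨n, H, c, h1, h2, h3, h4⟩ := hFAM k E B hB T hT i X hX
  exact (Ctl.inv_le h4).trans (h n H c h1 h2 h3 (h4.clz hc))

/-- The converse. -/
theorem tate_of_all (T : ∀ i : ℕ, Homology.{v} k E i) (j : ℕ) (V : Var k)
    (h : (T j).Surj V) (hc : CLZ (T j) V) : invDim (T j) V ≤ 0 :=
  ((invDim_zero (T j)).mpr ((T j).inv_zero_of_surj h hc)).le

/-- The converse. -/
theorem gap_of_all (T : ∀ i : ℕ, Homology.{v} k E i) (j : ℕ) (V : Var k)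
    (h : (T j).Inj V ∧ (T j).Surj V) : Gap T 0 j V := by
  have h1 := dim_eq (T j) V h.1 h.2
  refine ⟨?_, ?_, ?_⟩
  · rw [h1]
    exact natCast_lt_aleph0
  · intro h2
    rw [h2] at h1
    have h3 : invDim (T j) V = 0 := by exact_mod_cast h1.symm
    exact h3.le
  · intro h2
    rw [h1, h2]

/-- The converse of the zero form. -/
theorem zero_of_all (T : ∀ i : ℕ, Homology.{v} k E i) (j : ℕ) (V : Var k)
    (h : (T j).Inj V ∧ (T j).Surj V) (hc : CLZ (T j) V) :
    chowDim E j V ≤ (0 : ℕ) ∧ invDim (T j) V ≤ 0 := by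
  have h1 := tate_of_all T j V h.2 hc
  refine ⟨?_, h1⟩
  rw [dim_eq (T j) V h.1 h.2]
  exact_mod_cast h1

end Fin

end CGAP
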