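import Pool.Agent.CGAP.Defs

/-!
# CGAP: the gap theorem (statements of the modules)

Module `X` proves `theorem t_X : M_X` (or `t_X : S_X` if there is no `M_X`) in the namespace `CGAP`, in the file
`Pool/Agent/CGAP/X.lean`, importing this file.  The hypotheses of `M_X` are statements of other modules.  ALL statements of the
project CUB are available as theorems `CUB.Asm.s_PLIN`, `CUB.Asm.s_LOC`, ... (`open CUB.Asm`); see `Pool/Agent/CUB/StmtsA.lean`, `StmtsB.lean`, `StmtsC.lean`.
-/

set_option autoImplicit false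

open Polynomial CategoryTheory AlgebraicGeometry

namespace CGAP

open Pool.Agent.Lib_helper55.Beil Pool.Agent.Lib_helper66.OneP CUB

universe v

/-! ## 1. The double cover controls the variety -/

/-- VCH. Cycles. First part: by `s_CSU` a cycle `ζ` is, modulo `rat`, `push d₀ + push d₁` with `d_ε` the pull-back of a cycle `z_ε ∈ rat R'`; `d_ε ∈ rat` by `s_FP` (`I = ⊥`, `s_GX.2`), and `push` preserves `rat` (`s_PUSH`, `s_RON`). Second part: choose for every prime `p` of `R'` of dimension `i` the pull-back `D_p` of `[p]` to `MvPolynomial (Fin (m + 1)) R'` (`s_FPX`, `s_GX.2`),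
extend linearly (`Finsupp.linearCombination`) to `D`; `D z` is the pull-back of `z` for all `z` (`s_PLIN`, induction). `L z = push (sheet false) (D z) - push (sheet true) (D z)`. `L z ∈ rat → z ∈ rat` is `s_CIN`; the converse as in the first part. -/
def S_VCH : Prop := ∀ (k R R' E : Type) [Field k] [PerfectField k] [CommRing R] [CommRing R']
  [Algebra k R] [Algebra k R'] [Algebra.FiniteType k R] [Algebra.FiniteType k R'] [Field E]
  [CharZero E] (m i : ℕ) (f : Fin (m + 1) → R) (ψ : R →ₐ[k] R'), Function.Surjective ψ →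
  RingHom.ker ψ.toRingHom = Ideal.span (Set.range f) → (∀ z : RP k R i →₀ E, z ∈ rat k R E i) →
  ((∀ z : RP k R' i →₀ E, z ∈ rat k R' E i) →
    ∀ z : RP k (VR R f) (i + (m + 1)) →₀ E, z ∈ rat k (VR R f) E (i + (m + 1))) ∧
  ∃ L : (RP k R' i →₀ E) →ₗ[E] (RP k (VR R f) (i + (m + 1)) →₀ E),
    ∀ z, L z ∈ rat k (VR R f) E (i + (m + 1)) ↔ z ∈ rat k R' E i

/-- VHO. Homology; everything is in the proof of `red_surj` (`Pool/Agent/CUB/V_RED.lean`). First part: `M α = V (I0 (lam α) - I1 (lam α))` (names as there). It commutes with Frobenius. Injective: `V δ = 0` for `δ = I0 a - I1 a`, `τ δ = -δ`, so `δ = 0` by `hchain`, so `a = 0` by restriction to the first sheet (`clopen`), so `α = 0` (`hlam.inj`).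
Second part: an invariant class of `VR R f` is `cls ζ` (`surj_iff_cls`), `ζ ≡ push d₀ + push d₁` (`s_CSU`), `cls d_ε = lam (cls z_ε)`, and `cls z_ε = 0` since it is invariant; `cls_push`. Third part: the same. -/
def S_VHO : Prop := ∀ (k E : Type) [Field k] [Finite k] [Field E] [CharZero E]
  (T : ∀ i : ℕ, Homology.{v} k E i), Extra T → ∀ (R R' : Type) [CommRing R] [CommRing R']
  [Algebra k R] [Algebra k R'] [Algebra.FiniteType k R] [Algebra.FiniteType k R'] (m i : ℕ)
  (f : Fin (m + 1) → R) (ψ : R →ₐ[k] R'), Function.Surjective ψ →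
  RingHom.ker ψ.toRingHom = Ideal.span (Set.range f) → (∀ z : RP k R i →₀ E, z ∈ rat k R E i) →
  (∃ M : (T i).H (2 * i) (aff k R') →ₗ[E] (T (i + (m + 1))).H (2 * (i + (m + 1))) (aff k (VR R f)),
    Function.Injective M ∧ ∀ a, M ((T i).F (2 * i) _ a) = (T (i + (m + 1))).F _ _ (M a)) ∧
  ((T (i + (m + 1))).Surj (aff k (VR R f)) → HZ (T i) (aff k R') →
    HZ (T (i + (m + 1))) (aff k (VR R f))) ∧
  ((∀ z : RP k R' i →₀ E, CUB.cls T i z = 0) → ∀ ζ : RP k (VR R f) (i + (m + 1)) →₀ E,
    CUB.cls T (i + (m + 1)) ζ = 0)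

/-- TRA. Transport of `Ctl` along isomorphisms `X' ≅ X` and `V ≅ V'` (`VIso`): `(s.pts i)`, `ratZero_map`, `push_viso_bijective`, `surj_viso` in `Pool/Agent/CUB/BR5.lean`. -/
def S_TRA : Prop := ∀ (k E : Type) [Field k] [Field E] (T : ∀ i : ℕ, Homology.{v} k E i)
  (i j : ℕ) (X' X V V' : Var k), VIso X' X → VIso V V' → Ctl T i j X V → Ctl T i j X' V'

/-- AFC. From rings to varieties: `cyE_mem`, `surj_iff_cls`, `Submodule.mapQ`. -/
def S_AFC : Prop := ∀ (k E : Type) [Field k] [Field E] (T : ∀ i : ℕ, Homology.{v} k E i)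
  (A B : Type) [CommRing A] [CommRing B] [Algebra k A] [Algebra k B] [Algebra.FiniteType k A]
  [Algebra.FiniteType k B] (i j : ℕ),
  ((∀ z : RP k A i →₀ E, z ∈ rat k A E i) → ∀ z : RP k B j →₀ E, z ∈ rat k B E j) →
  (∃ L : (RP k A i →₀ E) →ₗ[E] (RP k B j →₀ E), ∀ z, L z ∈ rat k B E j ↔ z ∈ rat k A E i) →
  (∃ M : (T i).H (2 * i) (aff k A) →ₗ[E] (T j).H (2 * j) (aff k B),
    Function.Injective M ∧ ∀ a, M ((T i).F (2 * i) _ a) = (T j).F _ _ (M a)) →
  ((T j).Surj (aff k B) → HZ (T i) (aff k A) → HZ (T j) (aff k B)) →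
  ((∀ z : RP k A i →₀ E, CUB.cls T i z = 0) → ∀ z : RP k B j →₀ E, CUB.cls T j z = 0) →
  Ctl T i j (aff k A) (aff k B)

/-- FAM. As `HG.core3` in `Pool/Agent/CUBH/Main3.lean`, with S_VCH, S_VHO, S_AFC, S_TRA instead of S_RED (the module imports `Pool.Agent.CUBH.Main3`). -/
def S_FAM : Prop := ∀ (k E : Type) [Field k] [Finite k] [Field E] [CharZero E]
  (B : Set k), Subring.closure B = ⊤ → ∀ (T : ∀ i : ℕ, Homology.{v} k E i), Extra T →
  ∀ (i : ℕ) (X : Var k), IsAffine X.X → ∃ (n : ℕ) (H : Finset (Finset (Fin (3 * n))))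
    (c : Fin (3 * n) → k), Sparse H ∧ (∀ v, c v = 0 ∨ c v ∈ B) ∧ Smooth (cubic (hyp H c)).f ∧
    Ctl T i (2 * n) X (cubic (hyp H c))

def M_FAM : Prop := S_VCH → S_VHO.{v} → S_TRA.{v} → S_AFC.{v} → S_FAM.{v}

/-! ## 2. Surjectivity -/

/-- SMS. Fixed `i`. If for all affine varieties the Chow group is finite-dimensional, and Frobenius has no invariants if it is zero, then `Surj` and `Semisimple` hold for all varieties. `exists_small` (`Pool/Agent/Lib_helper66/OneP/Num.lean`) gives a nonempty affine open subvariety `U'` of `U` with `CZ`, so `HZ`: this is `SmallVanish` (`Pool/Agent/Lib_helper55/Beil/Surj.lean`), and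
`good_of_vanish`, `surj_of_good`, `semisimple_of_good` apply (a finite field is perfect). -/
def S_SMS : Prop := ∀ (k E : Type) [Field k] [Finite k] [Field E] (i : ℕ)
  (T : Homology.{v} k E i), (∀ X : Var k, IsAffine X.X → Module.Finite E (Chow E i X)) →
  (∀ X : Var k, IsAffine X.X → CZ E i X → HZ T X) → ∀ X : Var k, T.Surj X ∧ T.Semisimple X

/-! ## 3. Two copies of a variety -/

/-- DBL. `X = Spec A`, `X₂ = Spec (A × A)`. The projections `A × A → A` are surjective, with kernels generated by `(1, 0)` and `(0, 1)`, and localisations away from `(1, 0)`, `(0, 1)`. CZ: a cycle on `A × A` is a sum of push-forwards from the two copies (`s_PUSH`, support; or `s_LOC`), which are in `rat`. Chow: `(z, z') ↦ push₀ z + push₁ z'`; injective: the pull-back (restriction) to the first copy of `push₀ z + push₁ z'`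
is `z` (`isPull_zero_iff`; `s_FP` for `Good 0`, `s_GLO`). Homology: `(a, b) ↦ P₀ a + P₁ b` is injective: `X.clopen` (restriction to the first copy of `P₀ a` is `a`, of `P₁ b` is `0`), and every class is of this form (localisation), so HZ; CLZ: every point of `X₂` is in one of the two copies, `push_cl`. (Or use `s_TWO` / `S_SHE`: `Q A 0`, the two sheets, as the variety `X₂`: `SHE` with `m = 0`. Any affine `X₂` is fine.) -/
def S_DBL : Prop := ∀ (k E : Type) [Field k] [Field E]
  (T : ∀ i : ℕ, Homology.{v} k E i), Extra T → ∀ (i : ℕ) (X : Var k), IsAffine X.X →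
  ∃ X₂ : Var k, IsAffine X₂.X ∧ (CZ E i X → CZ E i X₂) ∧ (HZ (T i) X → HZ (T i) X₂) ∧
    (CLZ (T i) X → CLZ (T i) X₂) ∧
    (∃ L : (Chow E i X × Chow E i X) →ₗ[E] Chow E i X₂, Function.Injective L) ∧
    ∃ M : (invariants (T i) X × invariants (T i) X) →ₗ[E] invariants (T i) X₂, Function.Injective M

/-- BND. Iterate S_DBL: `X_j` with `2 ^ j ≤ invDim (X_j)` if `1 ≤ invDim X` and `CZ X_j` if `CZ X`; for `2 ^ j > C` a contradiction. Similarly for Chow groups (`chowDim` is the rank; `chowDim = 0` iff `CZ`; `LinearMap.rank_le_of_injective`). -/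
def S_BND : Prop := ∀ (k E : Type) [Field k] [Field E]
  (T : ∀ i : ℕ, Homology.{v} k E i), Extra T → ∀ (i C : ℕ),
  ((∀ X : Var k, IsAffine X.X → CZ E i X → invDim (T i) X ≤ C) →
    ∀ X : Var k, IsAffine X.X → CZ E i X → HZ (T i) X) ∧
  ((∀ X : Var k, IsAffine X.X → HZ (T i) X → chowDim E i X ≤ C) →
    ∀ X : Var k, IsAffine X.X → HZ (T i) X → CZ E i X) ∧
  ((∀ X : Var k, IsAffine X.X → CLZ (T i) X → invDim (T i) X ≤ C) →
    ∀ X : Var k, IsAffine X.X → CLZ (T i) X → HZ (T i) X)

def M_BND : Prop := S_DBL.{v} → S_BND.{v}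

/-! ## 4. The zero set of `∑ t_j g_j` -/

/-- LNB. The analogue of `S_VRL` (`Pool/Agent/CUB/A_VRL.lean`), simpler: away from `f l` the equation `∑ t_j f_j = 0` can be solved for `t_l`. `B` is any localisation of `LR R f` away from `f l`, `S` any localisation of `R` away from `f l`. -/
def S_LNB : Prop := ∀ (k R S B : Type) [Field k] [CommRing R] [CommRing S] [CommRing B]
  [Algebra k R] [Algebra k S] [Algebra k B] (m : ℕ) (f : Fin (m + 1) → R) (l : Fin (m + 1))
  (σ : R →ₐ[k] S) (φ : LR R f →ₐ[k] B),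
  (@IsLocalization.Away R _ (f l) S _ σ.toRingHom.toAlgebra) →
  (@IsLocalization.Away (LR R f) _ (mkL (k := k) f (MvPolynomial.C (f l))) B _
    φ.toRingHom.toAlgebra) →
  ∃ e : B ≃ₐ[k] MvPolynomial (Fin m) S,
    (∀ r : R, e (φ (mkL (k := k) f (MvPolynomial.C r))) = MvPolynomial.C (σ r)) ∧
    ∀ j : Fin m, e (φ (mkL (k := k) f (MvPolynomial.X (l.succAbove j)))) = MvPolynomial.X j

/-- MUL. The multiplicity one. `T` is a prime of `R[t]` containing `lin f` and not `f l`, `q = T ∩ R`. Then `dim T ≤ dim q + m`, and if equality holds then the ideal `q R[t] + (lin f)` generates the maximal ideal of the localisation at `T`, so `len (q R[t] + (lin f)) T = 1`. Proof: `T` corresponds to a prime `T'` of `B = (LR R f)_(f l) ≅ MvPolynomial (Fin m) S` (S_LNB), and `s_GX.2` gives `GoodAt k m (S → MvPolynomial (Fin m) S) T'`,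
and `R → S` is `Good 0` (`s_GLO`). The local ring of `B` at `T'` is the local ring of `LR R f` at the image of `T`, the quotient of the local ring of `R[t]` at `T` by `lin f`; if its maximal ideal is generated by `q` then `T R[t]_T` is generated by `q` and `lin f` (lift elements). The length of a field over the local ring is one (`len` with `Module.length`, `(1 : ℕ∞).toNat`). `T : PrimeSpectrum`, no dimension is fixed: `rdim` is a cardinal. -/
def S_MUL : Prop := ∀ (k R : Type) [Field k] [CommRing R] [Algebra k R] [Algebra.FiniteType k R]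
  (m : ℕ) (f : Fin (m + 1) → R) (l : Fin (m + 1))
  (T : PrimeSpectrum (MvPolynomial (Fin (m + 1)) R)), lin f ∈ T.asIdeal →
  MvPolynomial.C (f l) ∉ T.asIdeal →
  rdim k T ≤ rdim k (PrimeSpectrum.comap (mC k R (m + 1)).toRingHom T) + m ∧
  (rdim k T = rdim k (PrimeSpectrum.comap (mC k R (m + 1)).toRingHom T) + m →
    len ((PrimeSpectrum.comap (mC k R (m + 1)).toRingHom T).asIdeal.map
      (mC k R (m + 1)).toRingHom ⊔ Ideal.span {lin f}) T = 1)

def M_MUL : Prop := S_LNB → S_MUL

/-- STE. One step. `t` is a cycle on the zero set of `lin f`, of dimension `N = i + 1 + m`. Let `φ : LR R f → B` be the localisation away from `f l`, `S` the localisation of `R` away from `f l`, `e : B ≅ MvPolynomial (Fin m) S` (S_LNB). The restriction of `t` to `B` is, modulo `rat`, the pull-back `d'` of a cycle `z'` on `S` of dimension `i + 1` (`s_L0M`, transported by `e` (`s_PCO`, `s_PLIN`)). Extend `z'` to the cycle `z = ∑ z_q [q]` on `R`, all `q` not containing `f l`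
(`s_LOC` (2), remove the other primes, or construct directly). For such a `q`: the prime `q R[t]` (dimension `dim q + m + 1`, `s_GX`/`isPrime` of the extension, not containing `lin f`) has dimension `N + 1`; let `c_q` be the divisor of `lin f` on it (`s_DVX`), `c_q ∈ rat`, supported on `lin f`, so `c_q = push (mkL f) c'_q` (`s_PUSH`). By S_MUL the restriction of `c'_q` to `B` is the pull-back of `[q]` (as a cycle on `S`): for a prime `T'` of `B` of dimension `N`, with the prime `T` of `R[t]`: if `T ∩ R = q` then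
`c_q(T) = 1`; if `T ∩ R ≠ q` then either `q ⊄ T` and `c_q(T) = 0` (`s_LENC`), or `dim (T ∩ R) < dim q = i + 1` (`s_DIM1`) and `dim T ≤ i + m < N`, a contradiction. So the restriction to `B` of `t - ∑ z_q c'_q` is in `rat B`, and by `s_LOC` (1) (`I = ⊥`) there is `ρ ∈ rat (LR R f)` such that `κ = t - ∑ z_q c'_q - ρ` is supported on `f l`. `push κ = push t - ∑ z_q c_q - push ρ` (`s_PUSH`, `s_RON`). -/
def S_STE : Prop := ∀ (k R E : Type) [Field k] [CommRing R] [Algebra k R]
  [Algebra.FiniteType k R] [Field E] (m i N : ℕ) (f : Fin (m + 1) → R) (l : Fin (m + 1)),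
  N = i + 1 + m → ∀ t : RP k (LR R f) N →₀ E, ∃ κ : RP k (LR R f) N →₀ E,
    SuppOn k E (Ideal.span {mkL (k := k) f (MvPolynomial.C (f l))}) κ ∧
    push E (mkL (k := k) f) (mkL_surjective f) (t - κ) ∈ rat k (MvPolynomial (Fin (m + 1)) R) E N

def M_STE : Prop := S_LNB → S_MUL → S_STE

/-- GEN. Cycles on the zero set of `lin f`. Noetherian induction on the ideal `I` of `R`: CLAIM(I): the conclusion holds for the cycles `c` supported on `I R[t] + (lin f)` (the conclusion for `c` is linear in `c`, so let `c = [T]`). `p = T ∩ R ⊇ I`; if `p ≠ I` use CLAIM(p). Let `p = I`. If all `f j ∈ p`: `dim p ≤ i` by hypothesis, `T ⊇ p R[t]`, a prime of dimension `dim p + m + 1` (`s_GX`), `dim T = i + (m + 1)`, so `dim p = i` and `T = p R[t]` (`s_DIM1`), `[T]` is the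
pull-back of `[p]`. If `f l ∉ p`: `A = R / p`, `μ : R[t] → A[t]`, surjective with kernel `p R[t]`; `[T] = push μ (push (mkL _) t)` (`lin f ∈ T`; `map_lin`), S_STE for `A` and `t`, push forward: `[T] - push μ (push (mkL _) κ) ∈ rat`, and `push μ (push _ κ)` is supported on `p R[t] + (lin f) + (f l)`, so CLAIM(p + (f l)) applies. (Use `CLAIM(I)` with `SuppOn (I.map C ⊔ span {lin f})`; well-founded induction on ideals of the noetherian ring `R`, `IsNoetherian.induction` or `WellFoundedGT.induction`.) -/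
def S_GEN : Prop := ∀ (k R E : Type) [Field k] [CommRing R] [Algebra k R]
  [Algebra.FiniteType k R] [Field E] (m i : ℕ) (f : Fin (m + 1) → R),
  (∀ q : PrimeSpectrum R, (∀ j, f j ∈ q.asIdeal) → rdim k q ≤ (i : Cardinal)) →
  ∀ c : RP k (MvPolynomial (Fin (m + 1)) R) (i + (m + 1)) →₀ E,
    SuppOn k E (Ideal.span {lin f}) c →
    ∃ (z : RP k R i →₀ E) (d : RP k (MvPolynomial (Fin (m + 1)) R) (i + (m + 1)) →₀ E),
      SuppOn k E (Ideal.span (Set.range f)) z ∧ IsPull k E (m + 1) (mC k R (m + 1)) z d ∧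
      c - d ∈ rat k (MvPolynomial (Fin (m + 1)) R) E (i + (m + 1))

def M_GEN : Prop := S_STE → S_GEN

/-! ## 5. The key step -/

/-- KEY. `X = Spec R` (`exists_aff`, `inj_viso`). By `Surj` choose `w_1, ..., w_r ∈ RP k R i` whose classes are a basis of the invariants (`cls`, `surj_iff_cls`; the classes `cl [w]` span the invariants, `exists_linearIndependent` / `Submodule` basis from a spanning set). Let `I` be the intersection of the `w_j` (`⊤` if `r = 0`), generated by `f_0, ..., f_m` (noetherian; repeat a generator if necessary, `I ≠ ∅`), so a prime containing all `f_j` contains some `w_j` (`Ideal.IsPrime.inf_le'`), and has dimension `≤ i`, with equality only for `w_j` (`s_DIM1`).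
`P = MvPolynomial (Fin (m + 1)) R`, `s = m + 1`, `U = Localization.Away (lin f)`, an open subvariety of `Spec P`. (a) `HZ (T (i + s)) (aff k U)`: an invariant class `μ` is `cls c''` (`Surj`), `c''` is the restriction of `c` on `P` (`s_LOC` (2)), `c ≡ d` modulo `rat`, `d` the pull-back of `z` on `R` (`s_L0M`), `cls d = lam (cls z)` (`hline`), `cls z = ∑ e_j cls w_j`, so `cls d = cls d₁`, `d₁` the pull-back of `∑ e_j w_j`, whose support contains `lin f`, so its restriction to `U` is zero; `cls_res`.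
(b) So `CZ` for `aff k U` (hypothesis V2). For `z` on `R` let `d` be its pull-back to `P`; its restriction to `U` is in `rat`, so `d ≡ κ` modulo `rat` with `κ` supported on `lin f` (`s_LOC` (1)), `κ ≡ d₂`, the pull-back of a cycle `z₂` supported on `I` (S_GEN), so `z - z₂ ∈ rat` (`s_MVI`, `s_PLIN`), `z₂ = ∑ e_j w_j`. (c) If `cls z = 0` then all `e_j = 0`, so `z ∈ rat`: `Inj` (`inj_iff_cls`). -/
def S_KEY : Prop := ∀ (k E : Type) [Field k] [Finite k] [Field E] [CharZero E]
  (T : ∀ i : ℕ, Homology.{v} k E i), Extra T →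
  (∀ (i : ℕ) (X : Var k), IsAffine X.X → (T i).Surj X) →
  (∀ (i : ℕ) (X : Var k), IsAffine X.X → HZ (T i) X → CZ E i X) →
  ∀ (i : ℕ) (X : Var k), IsAffine X.X → (T i).Inj X

def M_KEY : Prop := S_GEN → S_KEY.{v}

end CGAP
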